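import Pool.Agent.Helper6.FixK.Level
import Pool.Agent.Helper15.An.Step
import Pool.Agent.Helper15.An.Stage2

/-! Moments of the averaging operator of a random tuple, expanded over words. -/

set_option linter.unusedSectionVars false

namespace Pool.Agent.Helper6.FixK

open Matrix Equiv Pool.Agent.Helper15.An
open scoped ComplexOrder

variable {n D : ℕ}

/-- value of a word at a tuple -/
def ev {k m : ℕ} (x : Fin k → Perm (Fin n)) (w : Fin m → Fin k × Bool) : Perm (Fin n) :=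
  FreeGroup.lift x (FreeGroup.mk (List.ofFn w))

theorem ev_cons {k m : ℕ} (x : Fin k → Perm (Fin n)) (s : Fin k × Bool)
    (w : Fin m → Fin k × Bool) :
    ev x (Fin.cons s w : Fin (m + 1) → Fin k × Bool) =
      (if s.2 then x s.1 else (x s.1)⁻¹) * ev x w := by
  unfold ev
  rw [List.ofFn_cons, FreeGroup.lift_mk, FreeGroup.lift_mk, List.map_cons, List.prod_cons]
  congr 1
  cases s.2 <;> rfl

theorem sum_letters {M : Type} [AddCommMonoid M] {k : ℕ} (f : Fin k × Bool → M) :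
    ∑ s, f s = ∑ l, (f (l, true) + f (l, false)) := by
  rw [Fintype.sum_prod_type]
  refine Finset.sum_congr rfl fun l _ => ?_
  rw [Fintype.sum_bool]

theorem avgRe_eq_letters {k : ℕ} {ρ : Perm (Fin n) →* Matrix (Fin D) (Fin D) ℂ}
    (hu : ∀ g, (ρ g)ᴴ * ρ g = 1) (x : Fin k → Perm (Fin n)) :
    avgRe (fun l => ρ (x l)) =
      (2 * (k : ℝ))⁻¹ • ∑ s : Fin k × Bool, ρ (if s.2 then x s.1 else (x s.1)⁻¹) := by
  unfold avgRe
  rw [sum_letters]
  congr 1
  refine Finset.sum_congr rfl fun l _ => ?_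
  rw [rho_conj ρ hu]
  simp

theorem letters_pow {k : ℕ} (ρ : Perm (Fin n) →* Matrix (Fin D) (Fin D) ℂ)
    (x : Fin k → Perm (Fin n)) (m : ℕ) :
    (∑ s : Fin k × Bool, ρ (if s.2 then x s.1 else (x s.1)⁻¹)) ^ m =
      ∑ w : Fin m → Fin k × Bool, ρ (ev x w) := by
  induction m with
  | zero =>
    rw [pow_zero, Fintype.sum_unique]
    unfold ev
    rw [List.ofFn_zero, ← FreeGroup.one_eq_mk, map_one, map_one]
  | succ m ih =>
    rw [pow_succ', ih, Finset.sum_mul]
    conv_rhs => rw [← (Fin.consEquiv (fun _ : Fin (m + 1) => Fin k × Bool)).sum_comp,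
      Fintype.sum_prod_type]
    refine Finset.sum_congr rfl fun s _ => ?_
    rw [Finset.mul_sum]
    refine Finset.sum_congr rfl fun w _ => ?_
    rw [← map_mul]
    exact congrArg ρ (ev_cons x s w).symm

theorem avgRe_pow {k : ℕ} {ρ : Perm (Fin n) →* Matrix (Fin D) (Fin D) ℂ}
    (hu : ∀ g, (ρ g)ᴴ * ρ g = 1) (x : Fin k → Perm (Fin n)) (m : ℕ) :
    (avgRe (fun l => ρ (x l))) ^ m =
      ((2 * (k : ℝ))⁻¹) ^ m • ∑ w : Fin m → Fin k × Bool, ρ (ev x w) := by
  rw [avgRe_eq_letters hu, smul_pow, letters_pow]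

/-- the trace of a unitary matrix is bounded by the dimension -/
theorem norm_trace_le {ρ : Perm (Fin n) →* Matrix (Fin D) (Fin D) ℂ}
    (hu : ∀ g, (ρ g)ᴴ * ρ g = 1) (g : Perm (Fin n)) : ‖Matrix.trace (ρ g)‖ ≤ D := by
  have hent : ∀ i, ‖ρ g i i‖ ≤ 1 := by
    intro i
    have h2 := congrFun (congrFun (hu g) i) i
    rw [Matrix.mul_apply, Matrix.one_apply_eq] at h2
    have h3 : ∑ j, ‖ρ g j i‖ ^ 2 = 1 := by
      have h4 : ∑ j, (ρ g)ᴴ i j * ρ g j i = ((∑ j, ‖ρ g j i‖ ^ 2 : ℝ) : ℂ) := by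
        push_cast
        refine Finset.sum_congr rfl fun j _ => ?_
        rw [conjTranspose_apply, Complex.star_def, ← Complex.normSq_eq_conj_mul_self,
          Complex.normSq_eq_norm_sq]
        push_cast
        rfl
      rw [h4] at h2
      exact_mod_cast h2
    have h5 : ‖ρ g i i‖ ^ 2 ≤ 1 := by
      rw [← h3]
      exact Finset.single_le_sum (f := fun j => ‖ρ g j i‖ ^ 2) (fun j _ => by positivity)
        (Finset.mem_univ i)
    nlinarith [norm_nonneg (ρ g i i)]
  unfold Matrix.trace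
  refine (norm_sum_le _ _).trans ?_
  calc ∑ i, ‖(ρ g).diag i‖ ≤ ∑ _i : Fin D, (1 : ℝ) := Finset.sum_le_sum fun i _ => hent i
    _ = D := by simp

/-- contribution of one word -/
theorem sum_word_le {k : ℕ} (hn : 2 ≤ n) {ρ : Perm (Fin n) →* Matrix (Fin D) (Fin D) ℂ}
    (hu : ∀ g, (ρ g)ᴴ * ρ g = 1) (g : FreeGroup (Fin k)) (hg : g ≠ 1) (m f F : ℕ)
    (hm : g.toWord.length ≤ m) (hV : 2 * (f * (m + 1)) ≤ n) (hF : 2 * (f * (m + 1)) ≤ F)
    (hF0 : 0 < F) (ψ : ℝ) (hψ0 : 0 ≤ ψ)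
    (hψ : ∀ g : Perm (Fin n), fixc g < F → ‖trace (ρ g)‖ ≤ D * ψ) :
    ∑ x : Fin k → Alt n, ‖trace (ρ (FreeGroup.lift (fun l => (x l : Perm (Fin n))) g))‖ ≤
      D * (Fintype.card (Alt n) : ℝ) ^ k *
        (2 ^ k * (4 * m * (f * (m + 1)) / F) ^ f + ψ) := by
  classical
  have h1 := fixed_points_bound (n := n) g hg m f F hm hV hF hF0
  set c : ℝ := (Nat.card {x : Fin k → Perm (Fin n) //
      F ≤ (Finset.univ.filter fun i : Fin n => FreeGroup.lift x g i = i).card} : ℝ) with hc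
  set S := Finset.univ.filter (fun x : Fin k → Alt n =>
    F ≤ fixc (FreeGroup.lift (fun l => (x l : Perm (Fin n))) g)) with hS
  have hScard : (S.card : ℝ) ≤ c := by
    have h2 : S.card ≤ Nat.card {x : Fin k → Perm (Fin n) //
        F ≤ (Finset.univ.filter fun i : Fin n => FreeGroup.lift x g i = i).card} := by
      rw [← Nat.card_eq_finsetCard S]
      have hmem : ∀ x : S, F ≤ (Finset.univ.filter fun i : Fin n =>
          FreeGroup.lift (fun l => ((x : Fin k → Alt n) l : Perm (Fin n))) g i = i).card :=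
        fun x => (Finset.mem_filter.1 x.2).2
      refine Nat.card_le_card_of_injective
        (fun x : S => (⟨fun l => ((x : Fin k → Alt n) l : Perm (Fin n)), hmem x⟩ :
          {x : Fin k → Perm (Fin n) //
            F ≤ (Finset.univ.filter fun i : Fin n => FreeGroup.lift x g i = i).card})) ?_
      intro x y hxy
      have hxy' := congrArg Subtype.val hxy
      refine Subtype.ext (funext fun l => Subtype.ext ?_)
      exact congrFun hxy' l
    rw [hc]
    exact_mod_cast h2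
  have hfac : (n.factorial : ℝ) ^ k = 2 ^ k * (Fintype.card (Alt n) : ℝ) ^ k := by
    have h3 := card_Alt hn
    rw [Fintype.card_perm, Fintype.card_fin] at h3
    rw [h3]
    push_cast
    rw [mul_pow]
  rw [← Finset.sum_filter_add_sum_filter_not Finset.univ (fun x : Fin k → Alt n =>
    F ≤ fixc (FreeGroup.lift (fun l => (x l : Perm (Fin n))) g)), ← hS]
  have hD : (0 : ℝ) ≤ D := Nat.cast_nonneg _
  have hA : ∑ x ∈ S, ‖trace (ρ (FreeGroup.lift (fun l => (x l : Perm (Fin n))) g))‖ ≤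
      D * (Fintype.card (Alt n) : ℝ) ^ k * (2 ^ k * (4 * m * (f * (m + 1)) / F) ^ f) := by
    refine (Finset.sum_le_sum fun x _ => norm_trace_le hu _).trans ?_
    rw [Finset.sum_const, nsmul_eq_mul]
    calc (S.card : ℝ) * D ≤ c * D := by gcongr
      _ ≤ ((n.factorial : ℝ) ^ k * (4 * m * (f * (m + 1)) / F) ^ f) * D := by gcongr
      _ = _ := by rw [hfac]; ring
  have hB : ∑ x ∈ Finset.univ.filter (fun x : Fin k → Alt n =>
      ¬ F ≤ fixc (FreeGroup.lift (fun l => (x l : Perm (Fin n))) g)),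
      ‖trace (ρ (FreeGroup.lift (fun l => (x l : Perm (Fin n))) g))‖ ≤
      D * (Fintype.card (Alt n) : ℝ) ^ k * ψ := by
    refine (Finset.sum_le_sum fun x hx => hψ _ (not_le.1 (Finset.mem_filter.1 hx).2)).trans ?_
    rw [Finset.sum_const, nsmul_eq_mul]
    have h4 : ((Finset.univ.filter (fun x : Fin k → Alt n =>
      ¬ F ≤ fixc (FreeGroup.lift (fun l => (x l : Perm (Fin n))) g))).card : ℝ) ≤
        (Fintype.card (Alt n) : ℝ) ^ k := by
      have h5 := Finset.card_filter_le (Finset.univ : Finset (Fin k → Alt n)) (fun x =>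
        ¬ F ≤ fixc (FreeGroup.lift (fun l => (x l : Perm (Fin n))) g))
      rw [Finset.card_univ, Fintype.card_fun, Fintype.card_fin] at h5
      exact_mod_cast h5
    calc _ ≤ (Fintype.card (Alt n) : ℝ) ^ k * (D * ψ) := by gcongr
      _ = _ := by ring
  rw [mul_add]
  exact add_le_add hA hB

/-- moment bound for the averaging operator of `k` random even permutations -/
theorem moment_le {k : ℕ} (hn : 2 ≤ n) (hk : 0 < k)
    {ρ : Perm (Fin n) →* Matrix (Fin D) (Fin D) ℂ}
    (hu : ∀ g, (ρ g)ᴴ * ρ g = 1) (m f F : ℕ)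
    (hV : 2 * (f * (m + 1)) ≤ n) (hF : 2 * (f * (m + 1)) ≤ F)
    (hF0 : 0 < F) (ψ : ℝ) (hψ0 : 0 ≤ ψ)
    (hψ : ∀ g : Perm (Fin n), fixc g < F → ‖trace (ρ g)‖ ≤ D * ψ) :
    ∑ x : Fin k → Alt n, (trace ((avgRe fun l => ρ (x l : Perm (Fin n))) ^ m)).re ≤
      D * (Fintype.card (Alt n) : ℝ) ^ k *
        ((2 * Real.sqrt (2 * k) / (2 * k)) ^ m +
          2 ^ k * (4 * m * (f * (m + 1)) / F) ^ f + ψ) := by
  classical
  have hk0 : (0 : ℝ) < k := by exact_mod_cast hk
  set N := (Fintype.card (Alt n) : ℝ) ^ k with hN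
  have hN0 : 0 ≤ N := by positivity
  have hD : (0 : ℝ) ≤ D := Nat.cast_nonneg _
  set b : ℝ := 2 ^ k * (4 * m * (f * (m + 1)) / F) ^ f + ψ with hb
  have hb0 : 0 ≤ b := by positivity
  have h1 : ∀ x : Fin k → Alt n, (trace ((avgRe fun l => ρ (x l : Perm (Fin n))) ^ m)).re ≤
      ((2 * (k : ℝ))⁻¹) ^ m * ∑ w : Fin m → Fin k × Bool,
        ‖trace (ρ (ev (fun l => (x l : Perm (Fin n))) w))‖ := by
    intro x
    rw [avgRe_pow hu (fun l => (x l : Perm (Fin n))), trace_smul, Complex.real_smul,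
      Complex.re_ofReal_mul]
    refine mul_le_mul_of_nonneg_left ?_ (by positivity)
    rw [Matrix.trace_sum]
    exact (Complex.re_le_norm _).trans (norm_sum_le _ _)
  refine (Finset.sum_le_sum fun x _ => h1 x).trans ?_
  rw [← Finset.mul_sum, Finset.sum_comm]
  -- words
  have h2 : ∀ w : Fin m → Fin k × Bool, ∑ x : Fin k → Alt n,
      ‖trace (ρ (ev (fun l => (x l : Perm (Fin n))) w))‖ ≤
      (if FreeGroup.mk (List.ofFn w) = 1 then D * N else 0) + D * N * b := by
    intro w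
    by_cases hw : FreeGroup.mk (List.ofFn w) = 1
    · rw [if_pos hw]
      have h3 : ∑ x : Fin k → Alt n, ‖trace (ρ (ev (fun l => (x l : Perm (Fin n))) w))‖ ≤
          D * N := by
        refine (Finset.sum_le_sum fun x _ => norm_trace_le hu _).trans ?_
        rw [Finset.sum_const, Finset.card_univ, Fintype.card_fun, Fintype.card_fin, nsmul_eq_mul,
          hN]
        push_cast
        rw [mul_comm]
      have h4 : 0 ≤ D * N * b := by positivity
      linarith
    · rw [if_neg hw, zero_add]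
      refine sum_word_le hn hu _ hw m f F ?_ hV hF hF0 ψ hψ0 hψ
      have h5 : (FreeGroup.mk (List.ofFn w)).toWord.length ≤ (List.ofFn w).length := by
        rw [FreeGroup.toWord_mk]
        exact FreeGroup.Red.length_le FreeGroup.reduce.red
      rwa [List.length_ofFn] at h5
  refine (mul_le_mul_of_nonneg_left (Finset.sum_le_sum fun w _ => h2 w)
    (by positivity)).trans ?_
  rw [Finset.sum_add_distrib, Finset.sum_const, Finset.card_univ, ← Finset.sum_filter,
    Finset.sum_const, nsmul_eq_mul, nsmul_eq_mul]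
  have h3 := trivial_words k m hk
  have h4 : (Fintype.card (Fin m → Fin k × Bool) : ℝ) = (2 * k) ^ m := by
    rw [Fintype.card_fun, Fintype.card_fin, Fintype.card_prod, Fintype.card_fin,
      Fintype.card_bool]
    push_cast
    rw [mul_comm]
  rw [h4]
  have h2k : (2 * (k : ℝ)) ≠ 0 := by positivity
  calc ((2 * (k : ℝ))⁻¹) ^ m * (((Finset.univ.filter fun w : Fin m → Fin k × Bool =>
        FreeGroup.mk (List.ofFn w) = 1).card : ℝ) * (D * N) + (2 * (k : ℝ)) ^ m * (D * N * b))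
      ≤ ((2 * (k : ℝ))⁻¹) ^ m * ((2 ^ m * Real.sqrt (2 * k) ^ m) * (D * N) +
          (2 * (k : ℝ)) ^ m * (D * N * b)) := by gcongr
    _ = (((2 * (k : ℝ))⁻¹) ^ m * (2 ^ m * Real.sqrt (2 * k) ^ m)) * (D * N) +
          (((2 * (k : ℝ))⁻¹) ^ m * (2 * (k : ℝ)) ^ m) * (D * N * b) := by ring
    _ = (2 * Real.sqrt (2 * k) / (2 * k)) ^ m * (D * N) + D * N * b := by
        have e1 : ((2 * (k : ℝ))⁻¹) ^ m * (2 * (k : ℝ)) ^ m = 1 := by
          rw [← mul_pow, inv_mul_cancel₀ h2k, one_pow]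
        have e2 : ((2 * (k : ℝ))⁻¹) ^ m * (2 ^ m * Real.sqrt (2 * k) ^ m) =
            (2 * Real.sqrt (2 * k) / (2 * k)) ^ m := by
          rw [← mul_pow, ← mul_pow]
          congr 1
          rw [div_eq_inv_mul]
        rw [e1, e2, one_mul]
    _ = _ := by rw [hb]; ring

end Pool.Agent.Helper6.FixK
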