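import Pool.Agent.Helper6.FixK.Block

/-! Union over the representations of level at most `p`, and passage to tuples. -/

set_option linter.unusedSectionVars false

namespace Pool.Agent.Helper6.FixK

open Matrix Equiv Pool.Agent.Helper15.An
open scoped ComplexOrder

variable {n : ℕ}

/-- exact level of a nontrivial representation -/
theorem exists_level {D : ℕ} {ρ : Perm (Fin n) →* Matrix (Fin D) (Fin D) ℂ} (hρ : IsIrr ρ)
    (hnt : ¬ Triv ρ (Alt n)) {p : ℕ} (hf : HasFix ρ (stab n p)) :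
    ∃ r, 0 < r ∧ r ≤ p ∧ HasFix ρ (stab n r) ∧ ¬ HasFix ρ (stab n (r - 1)) := by
  classical
  have hex : ∃ r, HasFix ρ (stab n r) := ⟨p, hf⟩
  set r := Nat.find hex with hr
  have h1 : HasFix ρ (stab n r) := Nat.find_spec hex
  have hr0 : 0 < r := by
    rcases Nat.eq_zero_or_pos r with h | h
    · exfalso
      apply hnt
      rcases dichotomy hρ (Alt n) with h2 | h2
      · exact h2
      · exfalso
        rw [h] at h1
        obtain ⟨v, hv0, hv⟩ := h1
        apply hv0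
        have h3 : psum ρ (Alt n) *ᵥ v = 0 := by rw [h2, Matrix.zero_mulVec]
        have h4 : psum ρ (Alt n) *ᵥ v = (Fintype.card (Alt n) : ℝ) • v := by
          unfold psum
          rw [Matrix.sum_mulVec]
          have h5 : ∀ a : Alt n, ρ (a : Perm (Fin n)) *ᵥ v = v := fun a =>
            hv ⟨a, mem_Alt.1 a.2, fun j hj => absurd hj (Nat.not_lt_zero _)⟩
          simp_rw [h5]
          rw [Finset.sum_const, Finset.card_univ]
          ext i
          simp
        rw [h4] at h3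
        have h6 : (Fintype.card (Alt n) : ℝ) ≠ 0 := by exact_mod_cast Fintype.card_ne_zero
        rcases smul_eq_zero.1 h3 with h7 | h7
        · exact absurd h7 h6
        · exact h7
    · exact h
  refine ⟨r, hr0, Nat.find_min' hex hf, h1, ?_⟩
  exact Nat.find_min hex (by omega)

/-- all blocks together are good on the levels up to `p` -/
def BGood (F : PW (Perm (Fin n))) (p : ℕ) (θ' : ℝ) {B k : ℕ} (x : Fin B → Fin k → Alt n) : Prop :=
  ∀ i, ¬ Triv (F.ρ i) (Alt n) → HasFix (F.ρ i) (stab n p) →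
    ((B * θ') • (1 : Matrix (Fin (F.D i)) (Fin (F.D i)) ℂ) -
      ∑ b, avgRe fun l => F.ρ i (x b l : Perm (Fin n))).PosSemidef

theorem bgood_count (F : PW (Perm (Fin n))) (p : ℕ) (hp : p ≤ n) (θ' : ℝ) {B k : ℕ}
    (N : ℝ) (hN : 0 ≤ N) (ε : ℕ → ℝ) (hε : ∀ r, 0 ≤ ε r)
    (h : ∀ i r, 0 < r → r ≤ p → HasFix (F.ρ i) (stab n r) → ¬ HasFix (F.ρ i) (stab n (r - 1)) →
      (Nat.card {x : Fin B → Fin k → Alt n //
        ¬ ((B * θ') • (1 : Matrix (Fin (F.D i)) (Fin (F.D i)) ℂ) -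
          ∑ b, avgRe fun l => F.ρ i (x b l : Perm (Fin n))).PosSemidef} : ℝ) ≤
        N * ε r * F.D i) :
    (Nat.card {x : Fin B → Fin k → Alt n // ¬ BGood F p θ' x} : ℝ) ≤
      N * ∑ r ∈ Finset.Icc 1 p, ε r * (2 * (n : ℝ) ^ r) := by
  classical
  set X := Fin B → Fin k → Alt n with hX
  set bad : Fin F.c → X → Prop := fun i x =>
    ¬ ((B * θ') • (1 : Matrix (Fin (F.D i)) (Fin (F.D i)) ℂ) -
      ∑ b, avgRe fun l => F.ρ i (x b l : Perm (Fin n))).PosSemidef with hbad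
  set S : ℕ → Finset (Fin F.c) := fun r => Finset.univ.filter fun i =>
    HasFix (F.ρ i) (stab n r) ∧ ¬ HasFix (F.ρ i) (stab n (r - 1)) with hS
  rw [Nat.card_eq_fintype_card, Fintype.card_subtype]
  have h1 : (Finset.univ.filter fun x : X => ¬ BGood F p θ' x) ⊆
      (Finset.Icc 1 p).biUnion fun r => (S r).biUnion fun i =>
        Finset.univ.filter fun x : X => bad i x := by
    intro x hx
    have hx2 := (Finset.mem_filter.1 hx).2
    unfold BGood at hx2
    push Not at hx2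
    obtain ⟨i, hnt, hf, hb⟩ := hx2
    obtain ⟨r, hr0, hrp, hr1, hr2⟩ := exists_level (F.irr i) hnt hf
    rw [Finset.mem_biUnion]
    refine ⟨r, Finset.mem_Icc.2 ⟨hr0, hrp⟩, ?_⟩
    rw [Finset.mem_biUnion]
    exact ⟨i, Finset.mem_filter.2 ⟨Finset.mem_univ _, hr1, hr2⟩,
      Finset.mem_filter.2 ⟨Finset.mem_univ _, hb⟩⟩
  have h2 := (Finset.card_le_card h1).trans Finset.card_biUnion_le
  refine (Nat.cast_le.2 h2).trans ?_
  push_cast
  rw [Finset.mul_sum]
  refine Finset.sum_le_sum fun r hr => ?_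
  have hr' := Finset.mem_Icc.1 hr
  have h3 : (((S r).biUnion fun i => Finset.univ.filter fun x : X => bad i x).card : ℝ) ≤
      ∑ i ∈ S r, ((Finset.univ.filter fun x : X => bad i x).card : ℝ) := by
    exact_mod_cast Finset.card_biUnion_le
  refine h3.trans ?_
  have h4 : ∀ i ∈ S r, ((Finset.univ.filter fun x : X => bad i x).card : ℝ) ≤
      N * ε r * F.D i := by
    intro i hi
    have hi' := (Finset.mem_filter.1 hi).2
    have h5 := h i r hr'.1 hr'.2 hi'.1 hi'.2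
    rw [Nat.card_eq_fintype_card, Fintype.card_subtype] at h5
    exact h5
  refine (Finset.sum_le_sum h4).trans ?_
  rw [← Finset.mul_sum, mul_assoc]
  refine mul_le_mul_of_nonneg_left ?_ hN
  refine mul_le_mul_of_nonneg_left ?_ (hε r)
  refine (sum_dim_hasFix_le F (stab n r) (S r) fun i hi => (Finset.mem_filter.1 hi).2.1).trans ?_
  exact index_stab_le r (by omega)

theorem gap_transfer' {d : Type} [Fintype d] [DecidableEq d] (A T R : Matrix d d ℂ)
    (K k b θ' η : ℝ) (hK : 0 < K) (hk : 0 ≤ k)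
    (hrel : (2 * K) • ((1 : Matrix d d ℂ) - A) = (2 * k) • (b • (1 : Matrix d d ℂ) - T) + R)
    (hR : R.PosSemidef) (hT : ((b * θ') • (1 : Matrix d d ℂ) - T).PosSemidef)
    (hη : η * K ≤ b * k * (1 - θ')) : ((1 - η) • (1 : Matrix d d ℂ) - A).PosSemidef := by
  have h4 : (2 * K) • ((1 - η) • (1 : Matrix d d ℂ) - A) =
      (2 * k) • ((b * θ') • (1 : Matrix d d ℂ) - T) + R +
        (2 * (b * k * (1 - θ')) - 2 * (η * K)) • (1 : Matrix d d ℂ) := by
    have h5 : R = (2 * K) • ((1 : Matrix d d ℂ) - A) -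
        (2 * k) • (b • (1 : Matrix d d ℂ) - T) := by
      rw [hrel]; abel
    rw [h5]
    module
  have h6 : ((2 * K) • ((1 - η) • (1 : Matrix d d ℂ) - A)).PosSemidef := by
    rw [h4]
    refine ((hT.smul (show (0 : ℝ) ≤ 2 * k by positivity)).add hR).add
      (Matrix.PosSemidef.one.smul ?_)
    linarith
  have h7 := h6.smul (show (0 : ℝ) ≤ (2 * K)⁻¹ by positivity)
  rw [smul_smul, inv_mul_cancel₀ (by positivity), one_smul] at h7
  exact h7

theorem rel_blocks' {D : ℕ} (ρ : Perm (Fin n) →* Matrix (Fin D) (Fin D) ℂ)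
    {B k t : ℕ} (hk : 0 < k) (hK : 0 < B * k + t) (z : Fin (B * k + t) → Alt n) :
    (2 * ((B * k + t : ℕ) : ℝ)) • ((1 : Matrix (Fin D) (Fin D) ℂ) -
      avgRe fun l => ρ (z l : Perm (Fin n))) =
    (2 * (k : ℝ)) • ((B : ℝ) • (1 : Matrix (Fin D) (Fin D) ℂ) -
        ∑ b, avgRe fun l => ρ ((blk z b l : Alt n) : Perm (Fin n))) +
      ∑ b : Fin t, ((2 : ℝ) • (1 : Matrix (Fin D) (Fin D) ℂ) -
        (ρ (z (Fin.natAdd (B * k) b) : Perm (Fin n)) +
          (ρ (z (Fin.natAdd (B * k) b) : Perm (Fin n)))ᴴ)) := by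
  have h1 := avgRe_energy hK fun l => ρ (z l : Perm (Fin n))
  have h2 := sum_blk z (fun y : Alt n => (2 : ℝ) • (1 : Matrix (Fin D) (Fin D) ℂ) -
    (ρ (y : Perm (Fin n)) + (ρ (y : Perm (Fin n)))ᴴ))
  have h3 : ∀ j, ∑ l, ((2 : ℝ) • (1 : Matrix (Fin D) (Fin D) ℂ) -
      (ρ ((blk z j l : Alt n) : Perm (Fin n)) + (ρ ((blk z j l : Alt n) : Perm (Fin n)))ᴴ)) =
      (2 * (k : ℝ)) • ((1 : Matrix (Fin D) (Fin D) ℂ) -
        avgRe fun l => ρ ((blk z j l : Alt n) : Perm (Fin n))) :=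
    fun j => (avgRe_energy hk _).symm
  have h4 : ∑ j : Fin B, ∑ l, ((2 : ℝ) • (1 : Matrix (Fin D) (Fin D) ℂ) -
      (ρ ((blk z j l : Alt n) : Perm (Fin n)) + (ρ ((blk z j l : Alt n) : Perm (Fin n)))ᴴ)) =
      (2 * (k : ℝ)) • ((B : ℝ) • (1 : Matrix (Fin D) (Fin D) ℂ) -
        ∑ b, avgRe fun l => ρ ((blk z b l : Alt n) : Perm (Fin n))) := by
    rw [Finset.sum_congr rfl fun j _ => h3 j, ← Finset.smul_sum, Finset.sum_sub_distrib,
      Finset.sum_const, Finset.card_univ, Fintype.card_fin, ← Nat.cast_smul_eq_nsmul ℝ]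
  rw [← h4]
  exact h1.trans h2

theorem good_of_bgood (F : PW (Perm (Fin n))) {B k t : ℕ} (hB : 0 < B) (hk : 0 < k)
    (z : Fin (B * k + t) → Alt n) (p : ℕ) (θ' : ℝ) (η : ℝ)
    (hη : η * ((B * k + t : ℕ) : ℝ) ≤ B * k * (1 - θ'))
    (h : BGood F p θ' (blk z)) : Good F (tupW z) p η := by
  intro i hi hf
  have hu := (F.irr i).unit
  rw [wop_tupW (F.ρ i) hu]
  have hKm : 0 < B * k := Nat.mul_pos hB hk
  have hk' : 0 < B * k + t := by omega
  exact gap_transfer' _ _ _ ((B * k + t : ℕ) : ℝ) k B θ' η (by exact_mod_cast hk')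
    (Nat.cast_nonneg k) (rel_blocks' (F.ρ i) hk hk' z)
    (posSemidef_sum _ fun b _ => energy_psd (F.ρ i) hu _) (h i hi hf) hη

theorem good_count (F : PW (Perm (Fin n))) {B k t : ℕ} (hB : 0 < B) (hk : 0 < k)
    (p : ℕ) (θ' : ℝ) (η : ℝ) (hη : η * ((B * k + t : ℕ) : ℝ) ≤ B * k * (1 - θ')) :
    (Nat.card {z : Fin (B * k + t) → Alt n // ¬ Good F (tupW z) p η} : ℝ) ≤
      (Nat.card {x : Fin B → Fin k → Alt n // ¬ BGood F p θ' x} : ℝ) *
        (Fintype.card (Alt n) : ℝ) ^ t := by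
  have h1 : Nat.card {z : Fin (B * k + t) → Alt n // ¬ Good F (tupW z) p η} ≤
      Nat.card ({x : Fin B → Fin k → Alt n // ¬ BGood F p θ' x} × (Fin t → Alt n)) := by
    refine Nat.card_le_card_of_injective
      (fun z => (⟨blk z.1, fun h => z.2 (good_of_bgood F hB hk z.1 p θ' η hη h)⟩,
        fun b => z.1 (Fin.natAdd (B * k) b))) ?_
    rintro ⟨z, hz⟩ ⟨w, hw⟩ h
    simp only [Prod.mk.injEq, Subtype.mk.injEq] at h
    obtain ⟨h2, h3⟩ := h
    refine Subtype.ext (funext fun l => ?_)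
    refine Fin.addCases (fun a => ?_) (fun b => ?_) l
    · have h4 := congrFun (congrFun h2 (finProdFinEquiv.symm a).1) (finProdFinEquiv.symm a).2
      unfold blk at h4
      rw [show ((finProdFinEquiv.symm a).1, (finProdFinEquiv.symm a).2) =
        finProdFinEquiv.symm a from rfl, Equiv.apply_symm_apply] at h4
      exact h4
    · exact congrFun h3 b
  rw [Nat.card_prod] at h1
  have h2 : Nat.card (Fin t → Alt n) = Fintype.card (Alt n) ^ t := by
    rw [Nat.card_eq_fintype_card, Fintype.card_fun, Fintype.card_fin]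
  rw [h2] at h1
  exact_mod_cast h1

end Pool.Agent.Helper6.FixK
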