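import Pool.Agent.Helper6.FixK.Rayleigh

/-! The sum over the levels; monotonicity of the gap. -/

set_option linter.unusedSectionVars false

namespace Pool.Agent.Helper6.FixK

open Matrix Equiv Filter Topology Pool.Agent.Helper15.An
open scoped ComplexOrder

theorem sum_levels (n p B : ℕ) (hn : 0 < n) (hp : p ≤ n) :
    ∑ r ∈ Finset.Icc 1 p, (2 ^ B * Real.exp (-(3 * r * Real.log n))) * (2 * (n : ℝ) ^ r) ≤
      2 ^ (B + 1) / n := by
  have hn0 : (0 : ℝ) < n := by exact_mod_cast hn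
  have hn1 : (1 : ℝ) ≤ n := by exact_mod_cast hn
  have h1 : ∀ r ∈ Finset.Icc 1 p, (2 ^ B * Real.exp (-(3 * r * Real.log n))) *
      (2 * (n : ℝ) ^ r) ≤ 2 ^ (B + 1) * ((n : ℝ) ^ 2)⁻¹ := by
    intro r hr
    have hr' := (Finset.mem_Icc.1 hr).1
    have h2 : Real.exp (-(3 * r * Real.log n)) = ((n : ℝ) ^ (3 * r))⁻¹ := by
      rw [Real.exp_neg, show (3 * (r : ℝ) * Real.log n) = ((3 * r : ℕ) : ℝ) * Real.log n by
        push_cast; ring, Real.exp_nat_mul, Real.exp_log hn0]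
    rw [h2]
    calc 2 ^ B * ((n : ℝ) ^ (3 * r))⁻¹ * (2 * (n : ℝ) ^ r)
        = 2 ^ (B + 1) * (((n : ℝ) ^ (3 * r))⁻¹ * (n : ℝ) ^ r) := by ring
      _ = 2 ^ (B + 1) * ((n : ℝ) ^ (2 * r))⁻¹ := by
          congr 1
          rw [show 3 * r = 2 * r + r by ring, pow_add, mul_inv, mul_assoc,
            inv_mul_cancel₀ (pow_ne_zero _ hn0.ne'), mul_one]
      _ ≤ 2 ^ (B + 1) * ((n : ℝ) ^ 2)⁻¹ := by
          refine mul_le_mul_of_nonneg_left ?_ (by positivity)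
          apply inv_anti₀ (by positivity)
          exact pow_le_pow_right₀ hn1 (by omega)
  refine (Finset.sum_le_sum h1).trans ?_
  rw [Finset.sum_const, Nat.card_Icc, nsmul_eq_mul, Nat.add_sub_cancel]
  calc (p : ℝ) * (2 ^ (B + 1) * ((n : ℝ) ^ 2)⁻¹) ≤ n * (2 ^ (B + 1) * ((n : ℝ) ^ 2)⁻¹) := by
        have : (p : ℝ) ≤ n := by exact_mod_cast hp
        gcongr
    _ = 2 ^ (B + 1) / n := by field_simp

theorem GroupGap.anti {n k : ℕ} {z : Fin k → Alt n} {p : ℕ} {ε ε' : ℝ} (h : ε ≤ ε')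
    (hg : GroupGap z p ε') : GroupGap z p ε := fun f hs hf => by
  refine (hg f hs hf).trans ?_
  refine mul_le_mul_of_nonneg_right (by linarith) (Finset.sum_nonneg fun g _ => sq_nonneg _)

end Pool.Agent.Helper6.FixK
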