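import Pool.Agent.Helper6.FixK.Rayleigh
import Pool.Agent.Helper6.FixK.SumLevels
import Pool.Agent.Helper6.FixK.Param

/-! The main count. -/

set_option linter.unusedSectionVars false

namespace Pool.Agent.Helper6.FixK

open Matrix Equiv Filter Topology Pool.Agent.Helper15.An
open scoped ComplexOrder

theorem eventually_bigN (κ a c : ℝ) (k : ℕ) (hκ : 0 < κ) (hc : 0 < c) :
    ∀ᶠ L : ℝ in atTop, BigN κ a c k L := by
  have hexp : ∀ (b C : ℝ), 0 < b → ∀ᶠ L : ℝ in atTop, C ≤ Real.exp (b * L) := by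
    intro b C hb
    filter_upwards [eventually_ge_atTop (C / b), eventually_ge_atTop 0] with L hL h0
    have h1 : C ≤ b * L := by
      rw [div_le_iff₀ hb] at hL
      linarith
    have := Real.add_one_le_exp (b * L)
    linarith
  have e3 : ∀ᶠ L : ℝ in atTop, 4 * (2 * c + 3) ^ 2 * L ^ 2 ≤ Real.exp (2 * κ * L) := by
    filter_upwards [eventually_ge_atTop (6 * (4 * (2 * c + 3) ^ 2) / (2 * κ) ^ 3),
      eventually_ge_atTop 0] with L hL h0
    have h1 := Real.pow_div_factorial_le_exp (2 * κ * L) (by positivity) 3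
    refine le_trans ?_ h1
    rw [div_le_iff₀ (by positivity)] at hL
    rw [le_div_iff₀ (by positivity)]
    have h2 : ((3 : ℕ).factorial : ℝ) = 6 := by norm_num [Nat.factorial]
    rw [h2, mul_pow]
    calc 4 * (2 * c + 3) ^ 2 * L ^ 2 * 6 = (6 * (4 * (2 * c + 3) ^ 2)) * L ^ 2 := by ring
      _ ≤ (L * (2 * κ) ^ 3) * L ^ 2 := by gcongr
      _ = (2 * κ) ^ 3 * L ^ 3 := by ring
  have e5 : ∀ᶠ L : ℝ in atTop, 2 * (2 * c + 3) * L ≤ Real.exp (κ * L) := by
    filter_upwards [eventually_ge_atTop (2 * (2 * (2 * c + 3)) / κ ^ 2),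
      eventually_ge_atTop 0] with L hL h0
    have h1 := Real.pow_div_factorial_le_exp (κ * L) (by positivity) 2
    refine le_trans ?_ h1
    rw [div_le_iff₀ (by positivity)] at hL
    rw [le_div_iff₀ (by positivity)]
    have h2 : ((2 : ℕ).factorial : ℝ) = 2 := by norm_num [Nat.factorial]
    rw [h2, mul_pow]
    calc 2 * (2 * c + 3) * L * 2 = (2 * (2 * (2 * c + 3))) * L := by ring
      _ ≤ (L * κ ^ 2) * L := by gcongr
      _ = κ ^ 2 * L ^ 2 := by ring
  filter_upwards [eventually_ge_atTop 1, eventually_ge_atTop (1 / c),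
    hexp (κ / 8) (2 * (Real.exp (2 * a) * (2 ^ k + 1))) (by positivity), e3,
    hexp (κ / 2) 18 (by positivity), e5, hexp κ 4 hκ] with L h0 h1 h2 h3 h4 h5 h6
  refine ⟨h0, ?_, ?_, h3, ?_, h5, h6⟩
  · rw [div_le_iff₀ hc] at h1; linarith
  · convert h2 using 2; ring
  · convert h4 using 2; ring

/-- few bad tuples -/
theorem bad_count {α κ a c c' : ℝ} {k : ℕ} (P : Par α κ a c c' k) {n : ℕ} (hn : 2 ≤ n)
    (hb : BigN κ a c k (Real.log n)) (p : ℕ) (hp : (p : ℝ) ≤ Real.exp (α * Real.log n))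
    (θ' η : ℝ) (B t : ℕ) (hB0 : 0 < B)
    (hB : 3 ≤ c' * (θ' - Real.exp (-a)) * B)
    (hη : η * ((B * k + t : ℕ) : ℝ) ≤ B * k * (1 - θ')) (F : PW (Perm (Fin n))) :
    (Nat.card {z : Fin (B * k + t) → Alt n // ¬ Good F (tupW z) p η} : ℝ) ≤
      (Fintype.card (Alt n) : ℝ) ^ (B * k + t) * (2 ^ (B + 1) / n) := by
  have hk0 : 0 < k := by
    have h1 := P.hk
    have h2 := Real.exp_pos (2 + 2 * a)
    have h3 : (0 : ℝ) < k := by linarith
    exact_mod_cast h3
  have hn0 : (0 : ℝ) < n := by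
    have : 0 < n := by omega
    exact_mod_cast this
  have hL0 : 0 ≤ Real.log n := le_trans zero_le_one hb.hL
  have hpn : p ≤ n := by
    have h1 : (p : ℝ) ≤ n := by
      refine hp.trans ?_
      calc Real.exp (α * Real.log n) ≤ Real.exp (1 * Real.log n) := by
            apply Real.exp_le_exp.2
            refine mul_le_mul_of_nonneg_right ?_ hL0
            linarith [P.hκα, P.hκ]
        _ = n := by rw [one_mul, Real.exp_log hn0]
    exact_mod_cast h1
  refine (good_count F hB0 hk0 p θ' η hη).trans ?_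
  have h1 := bgood_count F p hpn θ' (B := B) (k := k) (((Fintype.card (Alt n) : ℝ) ^ k) ^ B)
    (by positivity) (fun r => 2 ^ B * Real.exp (-(3 * r * Real.log n)))
    (fun r => by positivity) (fun i r hr0 hrp hf hnf =>
      level_tail P hn hb hr0 (le_trans (by exact_mod_cast hrp) hp) (F.irr i) hf hnf θ' B hB)
  calc _ ≤ (((Fintype.card (Alt n) : ℝ) ^ k) ^ B *
        ∑ r ∈ Finset.Icc 1 p, (2 ^ B * Real.exp (-(3 * r * Real.log n))) * (2 * (n : ℝ) ^ r)) *
          (Fintype.card (Alt n) : ℝ) ^ t := by gcongr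
    _ ≤ (((Fintype.card (Alt n) : ℝ) ^ k) ^ B * (2 ^ (B + 1) / n)) *
          (Fintype.card (Alt n) : ℝ) ^ t := by
        have := sum_levels n p B (by omega) hpn
        gcongr
    _ = _ := by
        have h2 : ((Fintype.card (Alt n) : ℝ) ^ k) ^ B = (Fintype.card (Alt n) : ℝ) ^ (B * k) := by
          rw [← pow_mul, mul_comm]
        rw [h2, pow_add]; ring

/-- the main probabilistic statement -/
theorem main (α ε : ℝ) (hα : α < 1 / 3) (hε : ε < 1) : ∃ K : ℕ, ∀ k : ℕ, K ≤ k →
    Tendsto (fun n : ℕ => (Nat.card {x : Fin k → Alt n // ∀ r : ℕ, (r : ℝ) ≤ (n : ℝ) ^ α →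
      GroupGap x r ε ∧ TupleGap x r ε} : ℝ) / Nat.card (Fin k → Alt n)) atTop (𝓝 1) := by
  -- normalised exponents
  set α' : ℝ := max α 0 with hα'
  have hα'0 : 0 ≤ α' := le_max_right _ _
  have hα'1 : α' < 1 / 3 := max_lt hα (by norm_num)
  set η : ℝ := 1 - max ε (1 / 2) with hη
  have hη0 : 0 < η := by
    have : max ε (1 / 2) < 1 := max_lt hε (by norm_num)
    linarith
  have hη1 : η ≤ 1 / 2 := by
    have := le_max_right ε (1 / 2)
    linarith
  -- constants
  set κ : ℝ := (1 - 3 * α') / 4 with hκ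
  have hκ0 : 0 < κ := by
    have : 0 < 1 - 3 * α' := by linarith
    positivity
  set a : ℝ := Real.log (4 / η) with ha
  have ha0 : 0 < a := by
    apply Real.log_pos
    rw [lt_div_iff₀ hη0]
    linarith
  have hexpa : Real.exp (-a) = η / 4 := by
    rw [Real.exp_neg, ha, Real.exp_log (by positivity), inv_div]
  set c : ℝ := κ / (8 * a) with hc
  have hc0 : 0 < c := by positivity
  set c' : ℝ := min c (κ / 8) with hc'
  have hc'0 : 0 < c' := lt_min hc0 (by positivity)
  set k0 : ℕ := ⌈2 * Real.exp (2 + 2 * a)⌉₊ with hk0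
  have P : Par α' κ a c c' k0 :=
    { hα := hα'0
      hκ := hκ0
      hκα := by rw [hκ]; ring
      ha := ha0
      hc := hc0
      hca := by rw [hc]; field_simp
      hc' := hc'0
      hc'c := min_le_left _ _
      hc'κ := by
        have := min_le_right c (κ / 8)
        linarith
      hk := Nat.le_ceil _ }
  have hk0pos : 0 < k0 := by
    have h1 := P.hk
    have h2 := Real.exp_pos (2 + 2 * a)
    have h3 : (0 : ℝ) < k0 := by linarith
    exact_mod_cast h3
  have hk0r : (0 : ℝ) < k0 := by exact_mod_cast hk0pos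
  set B0 : ℕ := ⌈3 / (c' * (η / 4))⌉₊ + ⌈2 / η⌉₊ + 1 with hB0
  refine ⟨k0 * B0, fun k hk => ?_⟩
  set B := k / k0 with hB
  set t := k % k0 with ht
  have hkeq : k = B * k0 + t := by
    rw [hB, ht, mul_comm]
    exact (Nat.div_add_mod k k0).symm
  have htk : t < k0 := Nat.mod_lt _ hk0pos
  have hBB0 : B0 ≤ B := by
    rw [hB, Nat.le_div_iff_mul_le hk0pos, mul_comm]
    exact hk
  have hBr : (⌈3 / (c' * (η / 4))⌉₊ : ℝ) + ⌈2 / η⌉₊ + 1 ≤ B := by
    have h1 : (B0 : ℝ) ≤ B := by exact_mod_cast hBB0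
    rw [hB0] at h1
    push_cast at h1
    exact h1
  have hce1 : 3 / (c' * (η / 4)) ≤ (⌈3 / (c' * (η / 4))⌉₊ : ℝ) := Nat.le_ceil _
  have hce2 : 2 / η ≤ (⌈2 / η⌉₊ : ℝ) := Nat.le_ceil _
  have hpos1 : 0 < 3 / (c' * (η / 4)) := by positivity
  have hpos2 : 0 < 2 / η := by positivity
  have hBpos : 0 < B := by
    have : 0 < B0 := by rw [hB0]; omega
    omega
  have hB3 : 3 ≤ c' * (η / 2 - Real.exp (-a)) * B := by
    rw [hexpa]
    have h1 : 3 / (c' * (η / 4)) ≤ B := by linarith
    rw [div_le_iff₀ (by positivity)] at h1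
    calc (3 : ℝ) ≤ B * (c' * (η / 4)) := h1
      _ = c' * (η / 2 - η / 4) * B := by ring
  have hηB : (1 - η) * ((B * k0 + t : ℕ) : ℝ) ≤ B * k0 * (1 - η / 2) := by
    have h1 : 2 / η ≤ B := by linarith
    rw [div_le_iff₀ hη0] at h1
    have h2 : (t : ℝ) ≤ k0 := by exact_mod_cast htk.le
    have h3 : (k0 : ℝ) * 2 ≤ k0 * (B * η) := mul_le_mul_of_nonneg_left h1 hk0r.le
    push_cast
    have h4 : 0 ≤ (t : ℝ) := Nat.cast_nonneg t
    nlinarith
  -- the limit
  have hlim : Tendsto (fun n : ℕ => 1 - (2 : ℝ) ^ (B + 1) / n) atTop (𝓝 1) := by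
    have h5 : Tendsto (fun n : ℕ => (2 : ℝ) ^ (B + 1) / (n : ℝ)) atTop (𝓝 0) :=
      tendsto_const_div_atTop_nhds_zero_nat _
    simpa using h5.const_sub 1
  have hlog : Tendsto (fun n : ℕ => Real.log n) atTop atTop :=
    Real.tendsto_log_atTop.comp tendsto_natCast_atTop_atTop
  have hbig : ∀ᶠ n : ℕ in atTop, BigN κ a c k0 (Real.log n) :=
    hlog.eventually (eventually_bigN κ a c k0 hκ0 hc0)
  refine tendsto_of_tendsto_of_tendsto_of_le_of_le' hlim tendsto_const_nhds ?_ ?_
  · filter_upwards [hbig, eventually_ge_atTop 8] with n hb hn8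
    obtain ⟨F⟩ := exists_pw (Equiv.Perm (Fin n))
    have hn0 : (0 : ℝ) < n := by
      have : 0 < n := by omega
      exact_mod_cast this
    have hn1 : (1 : ℝ) ≤ n := by
      have : 1 ≤ n := by omega
      exact_mod_cast this
    set p := ⌊(n : ℝ) ^ α'⌋₊ with hp
    have hexp : (n : ℝ) ^ α' = Real.exp (α' * Real.log n) := by
      rw [Real.rpow_def_of_pos hn0, mul_comm]
    have hp1 : (p : ℝ) ≤ Real.exp (α' * Real.log n) := by
      rw [← hexp]
      exact Nat.floor_le (by positivity)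
    have hbad : (Nat.card {z : Fin k → Alt n // ¬ Good F (tupW z) p (1 - η)} : ℝ) ≤
        (Fintype.card (Alt n) : ℝ) ^ k * (2 ^ (B + 1) / n) := by
      have h1 := bad_count P (by omega) hb p hp1 (η / 2) (1 - η) B t hBpos hB3 hηB F
      rw [← hkeq] at h1
      exact h1
    -- good tuples have gaps
    have hgap : ∀ z : Fin k → Alt n, Good F (tupW z) p (1 - η) → ∀ r : ℕ,
        (r : ℝ) ≤ (n : ℝ) ^ α → GroupGap z r ε ∧ TupleGap z r ε := by
      intro z hz r hr
      have hr' : (r : ℝ) ≤ (n : ℝ) ^ α' :=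
        hr.trans (Real.rpow_le_rpow_of_exponent_le hn1 (le_max_left _ _))
      have hrp : r ≤ p := Nat.le_floor hr'
      have h1 := groupGap_of_good F z p (1 - η) hz
      have h2 : GroupGap z r ε := by
        refine (h1.mono hrp).anti ?_
        rw [hη]
        have := le_max_left ε (1 / 2)
        linarith
      refine ⟨h2, tupleGap_of_groupGap z ?_ h2⟩
      -- r + 2 ≤ n
      have h3 : (r : ℝ) * 4 ≤ n := by
        calc (r : ℝ) * 4 ≤ Real.exp (α' * Real.log n) * Real.exp (κ * Real.log n) := by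
              have := hb.h6
              rw [hexp] at hr'
              gcongr
          _ = Real.exp ((α' + κ) * Real.log n) := by rw [← Real.exp_add]; congr 1; ring
          _ ≤ Real.exp (1 * Real.log n) := by
              apply Real.exp_le_exp.2
              refine mul_le_mul_of_nonneg_right ?_ (le_trans zero_le_one hb.hL)
              rw [hκ]; linarith
          _ = n := by rw [one_mul, Real.exp_log hn0]
      have h4 : r * 4 ≤ n := by exact_mod_cast h3
      omega
    have hcards : (Nat.card (Fin k → Alt n) : ℝ) = (Fintype.card (Alt n) : ℝ) ^ k := by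
      rw [Nat.card_eq_fintype_card, Fintype.card_fun, Fintype.card_fin]; push_cast; rfl
    have hN : (0 : ℝ) < (Fintype.card (Alt n) : ℝ) ^ k := by
      have : (0 : ℝ) < Fintype.card (Alt n) := card_pos' (Alt n)
      positivity
    rw [hcards, le_div_iff₀ hN]
    classical
    have hsplit : (Nat.card (Fin k → Alt n) : ℝ) ≤
        (Nat.card {x : Fin k → Alt n // ∀ r : ℕ, (r : ℝ) ≤ (n : ℝ) ^ α →
          GroupGap x r ε ∧ TupleGap x r ε} : ℝ) +
        Nat.card {z : Fin k → Alt n // ¬ Good F (tupW z) p (1 - η)} := by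
      have h1 : Nat.card (Fin k → Alt n) =
          Nat.card {z : Fin k → Alt n // Good F (tupW z) p (1 - η)} +
          Nat.card {z : Fin k → Alt n // ¬ Good F (tupW z) p (1 - η)} := by
        rw [Nat.card_eq_fintype_card, Nat.card_eq_fintype_card, Nat.card_eq_fintype_card,
          Fintype.card_subtype_compl]
        have := Fintype.card_subtype_le (fun z : Fin k → Alt n => Good F (tupW z) p (1 - η))
        omega
      have h2 : Nat.card {z : Fin k → Alt n // Good F (tupW z) p (1 - η)} ≤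
          Nat.card {x : Fin k → Alt n // ∀ r : ℕ, (r : ℝ) ≤ (n : ℝ) ^ α →
            GroupGap x r ε ∧ TupleGap x r ε} :=
        Nat.card_le_card_of_injective (fun z => ⟨z.1, hgap z.1 z.2⟩) (by
          intro x y hxy
          have := congrArg Subtype.val hxy
          exact Subtype.ext this)
      rw [h1]
      push_cast
      have h3 : (Nat.card {z : Fin k → Alt n // Good F (tupW z) p (1 - η)} : ℝ) ≤
          Nat.card {x : Fin k → Alt n // ∀ r : ℕ, (r : ℝ) ≤ (n : ℝ) ^ α →
            GroupGap x r ε ∧ TupleGap x r ε} := by exact_mod_cast h2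
      linarith
    rw [hcards] at hsplit
    nlinarith
  · filter_upwards [eventually_ge_atTop 1] with n hn
    have hcards : (0 : ℝ) < Nat.card (Fin k → Alt n) := by
      have : 0 < Nat.card (Fin k → Alt n) := Nat.card_pos
      exact_mod_cast this
    rw [div_le_one hcards]
    have := Nat.card_le_card_of_injective
      (fun x : {x : Fin k → Alt n // ∀ r : ℕ, (r : ℝ) ≤ (n : ℝ) ^ α →
        GroupGap x r ε ∧ TupleGap x r ε} => x.1) Subtype.val_injective
    exact_mod_cast this

end Pool.Agent.Helper6.FixK
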