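import Pool.Agent.Helper6.FixK.Word
import Pool.Agent.Helper15.An.Trans

/-! From moments to a tail bound for the average of several independent blocks. -/

set_option linter.unusedSectionVars false

namespace Pool.Agent.Helper6.FixK

open Matrix Equiv Pool.Agent.Helper15.An
open scoped ComplexOrder

variable {n D : ℕ}

theorem trace_pow_eq {d : Type} [Fintype d] [DecidableEq d] {T : Matrix d d ℂ}
    (hT : T.IsHermitian) (l : ℕ) : (trace (T ^ l)).re = ∑ i, (hT.eigenvalues i) ^ l := by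
  conv_lhs => rw [spec_decomp hT]
  rw [conj_diag_pow, Matrix.trace_mul_comm, ← Matrix.mul_assoc,
    unitary_conj_mul, Matrix.one_mul, Matrix.trace_diagonal]
  rw [Complex.re_sum]
  refine Finset.sum_congr rfl fun i _ => ?_
  rw [← Complex.ofReal_pow, Complex.ofReal_re]

theorem avgRe_le_one {k : ℕ} (hk : 0 < k) {ρ : Perm (Fin n) →* Matrix (Fin D) (Fin D) ℂ}
    (hu : ∀ g, (ρ g)ᴴ * ρ g = 1) (x : Fin k → Perm (Fin n)) :
    ((1 : ℝ) • (1 : Matrix (Fin D) (Fin D) ℂ) - avgRe fun l => ρ (x l)).PosSemidef := by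
  have hk0 : (0 : ℝ) < 2 * k := by positivity
  have h1 := avgRe_energy hk fun l => ρ (x l)
  have h2 : ((1 : ℝ) • (1 : Matrix (Fin D) (Fin D) ℂ) - avgRe fun l => ρ (x l)) =
      (2 * (k : ℝ))⁻¹ • ∑ l, ((2 : ℝ) • (1 : Matrix (Fin D) (Fin D) ℂ) -
        (ρ (x l) + (ρ (x l))ᴴ)) := by
    rw [← h1, smul_smul, inv_mul_cancel₀ hk0.ne', one_smul, one_smul]
  rw [h2]
  exact (posSemidef_sum _ fun l _ => energy_psd ρ hu _).smul (by positivity)

/-- trace of the exponential, from a moment -/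
theorem trace_exp_le_moment {d : Type} [Fintype d] [DecidableEq d] {T : Matrix d d ℂ}
    (hT : T.IsHermitian) (h1 : ((1 : ℝ) • (1 : Matrix d d ℂ) - T).PosSemidef) (θ s : ℝ)
    (hθ : 0 < θ) (hs : 0 ≤ s) (t : ℕ) :
    (trace (NormedSpace.exp (s • T))).re ≤
      Fintype.card d * Real.exp (s * θ) + (θ⁻¹) ^ (2 * t) * Real.exp s *
        (trace (T ^ (2 * t))).re := by
  rw [trace_exp_smul hT, trace_pow_eq hT, Finset.mul_sum, ← nsmul_eq_mul]
  have h2 : Fintype.card d • Real.exp (s * θ) = ∑ _i : d, Real.exp (s * θ) := by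
    rw [Finset.sum_const, Finset.card_univ]
  rw [h2, ← Finset.sum_add_distrib]
  refine Finset.sum_le_sum fun i _ => ?_
  have h3 := eigenvalues_le_of hT 1 h1 i
  have hpos : 0 ≤ (θ⁻¹) ^ (2 * t) * Real.exp s * (hT.eigenvalues i) ^ (2 * t) := by
    have : 0 ≤ (hT.eigenvalues i) ^ (2 * t) := by
      rw [pow_mul]; positivity
    positivity
  rcases le_total (hT.eigenvalues i) θ with h | h
  · have h4 : Real.exp (s * hT.eigenvalues i) ≤ Real.exp (s * θ) :=
      Real.exp_le_exp.2 (mul_le_mul_of_nonneg_left h hs)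
    linarith
  · have h4 : Real.exp (s * hT.eigenvalues i) ≤ Real.exp s := by
      apply Real.exp_le_exp.2
      nlinarith
    have h5 : 1 ≤ (θ⁻¹ * hT.eigenvalues i) ^ (2 * t) := by
      apply one_le_pow₀
      rw [← div_eq_inv_mul, one_le_div hθ]
      exact h
    have h6 : Real.exp s ≤ (θ⁻¹) ^ (2 * t) * Real.exp s * (hT.eigenvalues i) ^ (2 * t) := by
      calc Real.exp s = 1 * Real.exp s := (one_mul _).symm
        _ ≤ (θ⁻¹ * hT.eigenvalues i) ^ (2 * t) * Real.exp s := by gcongr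
        _ = _ := by rw [mul_pow]; ring
    have h7 := Real.exp_pos (s * θ)
    linarith

/-- the average of the exponentials is a scalar matrix -/
theorem sum_exp_eq_smul {k : ℕ} {ρ : Perm (Fin n) →* Matrix (Fin D) (Fin D) ℂ} (hρ : IsIrr ρ)
    (s : ℝ) : ∑ x : Fin k → Alt n, NormedSpace.exp (s • avgRe fun l => ρ (x l : Perm (Fin n))) =
      ((∑ x : Fin k → Alt n,
        (trace (NormedSpace.exp (s • avgRe fun l => ρ (x l : Perm (Fin n))))).re) / D : ℝ) •
          (1 : Matrix (Fin D) (Fin D) ℂ) := by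
  classical
  have hu := hρ.unit
  set E := ∑ x : Fin k → Alt n, NormedSpace.exp (s • avgRe fun l => ρ (x l : Perm (Fin n)))
    with hE
  have hconj : ∀ g : Perm (Fin n), ρ g * E * (ρ g)ᴴ = E := by
    intro g
    have hU : ρ g ∈ Matrix.unitaryGroup (Fin D) ℂ := by
      rw [Matrix.mem_unitaryGroup_iff']
      exact hu g
    set e : (Fin k → Alt n) ≃ (Fin k → Alt n) :=
      Equiv.arrowCongr (Equiv.refl _) (MulAut.conjNormal g : Alt n ≃* Alt n).toEquiv with he
    rw [hE, Finset.mul_sum, Finset.sum_mul, ← Equiv.sum_comp e (fun x : Fin k → Alt n =>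
      NormedSpace.exp (s • avgRe fun l => ρ (x l : Perm (Fin n))))]
    refine Finset.sum_congr rfl fun x _ => ?_
    have h1 := exp_unitary_conj (⟨ρ g, hU⟩ : Matrix.unitaryGroup (Fin D) ℂ)
      (s • avgRe fun l => ρ (x l : Perm (Fin n)))
    rw [← h1]
    congr 1
    show ρ g * (s • avgRe fun l => ρ (x l : Perm (Fin n))) * (ρ g)ᴴ = _
    rw [Matrix.mul_smul, Matrix.smul_mul]
    congr 1
    unfold avgRe
    rw [Matrix.mul_smul, Matrix.smul_mul, Finset.mul_sum, Finset.sum_mul]
    congr 1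
    refine Finset.sum_congr rfl fun l _ => ?_
    have h2 : ((e x l : Alt n) : Perm (Fin n)) = g * (x l : Perm (Fin n)) * g⁻¹ := by
      rw [he]
      simp [Equiv.arrowCongr]
    show ρ g * (ρ (x l : Perm (Fin n)) + (ρ (x l : Perm (Fin n)))ᴴ) * (ρ g)ᴴ =
      ρ ((e x l : Alt n) : Perm (Fin n)) + (ρ ((e x l : Alt n) : Perm (Fin n)))ᴴ
    rw [h2, map_mul, map_mul, ← rho_conj ρ hu, Matrix.conjTranspose_mul, Matrix.conjTranspose_mul,
      conjTranspose_conjTranspose, Matrix.mul_add, Matrix.add_mul]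
    simp only [Matrix.mul_assoc]
  have h1 := hρ.schur E
  simp_rw [hconj] at h1
  rw [Finset.sum_const, Finset.card_univ] at h1
  have hG : (Fintype.card (Perm (Fin n)) : ℂ) ≠ 0 := by
    exact_mod_cast Fintype.card_ne_zero
  set c : ℂ := trace E / D with hc
  have h2 : E = c • (1 : Matrix (Fin D) (Fin D) ℂ) := by
    have h3 : (Fintype.card (Perm (Fin n)) : ℂ) • E = (Fintype.card (Perm (Fin n)) : ℂ) • c •
        (1 : Matrix (Fin D) (Fin D) ℂ) := by
      rw [smul_smul, hc, ← mul_div_assoc, ← h1]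
      ext i j
      simp
    exact smul_right_injective _ hG h3
  have hHerm : E.IsHermitian := by
    rw [hE]
    unfold Matrix.IsHermitian
    rw [conjTranspose_sum]
    refine Finset.sum_congr rfl fun x _ => ?_
    have hA : (s • avgRe fun l => ρ (x l : Perm (Fin n))).IsHermitian := by
      unfold Matrix.IsHermitian
      rw [conjTranspose_smul, (avgRe_isHermitian _).eq]
      simp
    exact (exp_posSemidef hA).isHermitian
  have h4 := trace_psd_real hHerm
  have h5 : (trace E).re = ∑ x : Fin k → Alt n,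
      (trace (NormedSpace.exp (s • avgRe fun l => ρ (x l : Perm (Fin n))))).re := by
    rw [hE, Matrix.trace_sum, Complex.re_sum]
  rw [← h5]
  conv_lhs => rw [h2, hc, ← h4]
  ext i j
  simp [Matrix.smul_apply]

/-- tail bound for the average of `B` independent blocks -/
theorem blocks_tail {k : ℕ} (hk : 0 < k) {ρ : Perm (Fin n) →* Matrix (Fin D) (Fin D) ℂ}
    (hρ : IsIrr ρ) (θ θ' s : ℝ) (hθ : 0 < θ) (hs : 0 ≤ s) (t : ℕ) (M : ℝ) (hM0 : 0 ≤ M)
    (hM : ∑ x : Fin k → Alt n, (trace ((avgRe fun l => ρ (x l : Perm (Fin n))) ^ (2 * t))).re ≤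
      D * (Fintype.card (Alt n) : ℝ) ^ k * M) (B : ℕ) :
    (Nat.card {x : Fin B → Fin k → Alt n //
      ¬ ((B * θ') • (1 : Matrix (Fin D) (Fin D) ℂ) -
        ∑ b, avgRe fun l => ρ (x b l : Perm (Fin n))).PosSemidef} : ℝ) ≤
      ((Fintype.card (Alt n) : ℝ) ^ k) ^ B *
        ((Real.exp (s * θ) + (θ⁻¹) ^ (2 * t) * Real.exp s * M) ^ B *
          Real.exp (-(s * (B * θ')))) * D := by
  classical
  have hu := hρ.unit
  have hD : (0 : ℝ) < D := by exact_mod_cast hρ.pos
  set κ : ℝ := Real.exp (s * θ) + (θ⁻¹) ^ (2 * t) * Real.exp s * M with hκ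
  have hκ0 : 0 ≤ κ := by positivity
  set A : (Fin k → Alt n) → Matrix (Fin D) (Fin D) ℂ := fun x =>
    avgRe fun l => ρ (x l : Perm (Fin n)) with hA
  have hAH : ∀ x, (A x).IsHermitian := fun x => avgRe_isHermitian _
  have hcard : (Fintype.card (Fin k → Alt n) : ℝ) = (Fintype.card (Alt n) : ℝ) ^ k := by
    rw [Fintype.card_fun, Fintype.card_fin]; push_cast; rfl
  set N : ℝ := (Fintype.card (Alt n) : ℝ) ^ k with hN
  have hN0 : 0 ≤ N := by positivity
  have htr : ∑ x, (trace (NormedSpace.exp (s • A x))).re ≤ D * N * κ := by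
    have h1 : ∀ x, (trace (NormedSpace.exp (s • A x))).re ≤
        D * Real.exp (s * θ) + (θ⁻¹) ^ (2 * t) * Real.exp s * (trace ((A x) ^ (2 * t))).re := by
      intro x
      have := trace_exp_le_moment (hAH x)
        (avgRe_le_one hk hu fun l => (x l : Perm (Fin n))) θ s hθ hs t
      rwa [Fintype.card_fin] at this
    refine (Finset.sum_le_sum fun x _ => h1 x).trans ?_
    rw [Finset.sum_add_distrib, ← Finset.mul_sum Finset.univ
      (fun x => (trace ((A x) ^ (2 * t))).re) ((θ⁻¹) ^ (2 * t) * Real.exp s),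
      Finset.sum_const, Finset.card_univ, nsmul_eq_mul, hcard]
    have h2 : (θ⁻¹) ^ (2 * t) * Real.exp s * ∑ x, (trace ((A x) ^ (2 * t))).re ≤
        (θ⁻¹) ^ (2 * t) * Real.exp s * (D * N * M) := by
      refine mul_le_mul_of_nonneg_left hM (by positivity)
    calc _ ≤ N * (D * Real.exp (s * θ)) + (θ⁻¹) ^ (2 * t) * Real.exp s * (D * N * M) := by
          linarith
      _ = D * N * κ := by rw [hκ]; ring
  have hE := sum_exp_eq_smul (k := k) hρ s
  have hZ : ∀ x, (s • A x).IsHermitian := by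
    intro x
    unfold Matrix.IsHermitian
    rw [conjTranspose_smul, (hAH x).eq]
    simp
  have hch := chernoff_general (fun x => s • A x) hZ κ hκ0 (by
    rw [hcard]
    show ((N * κ) • (1 : Matrix (Fin D) (Fin D) ℂ) -
      ∑ x : Fin k → Alt n, NormedSpace.exp (s • avgRe fun l => ρ (x l : Perm (Fin n)))).PosSemidef
    rw [hE, ← sub_smul]
    refine Matrix.PosSemidef.one.smul ?_
    rw [sub_nonneg, div_le_iff₀ hD]
    refine htr.trans (le_of_eq ?_)
    ring) B
  rw [hcard, Fintype.card_fin] at hch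
  -- Markov
  set S := Finset.univ.filter (fun x : Fin B → Fin k → Alt n =>
    ¬ ((B * θ') • (1 : Matrix (Fin D) (Fin D) ℂ) - ∑ b, A (x b)).PosSemidef) with hS
  have hcardS : (Nat.card {x : Fin B → Fin k → Alt n //
      ¬ ((B * θ') • (1 : Matrix (Fin D) (Fin D) ℂ) -
        ∑ b, avgRe fun l => ρ (x b l : Perm (Fin n))).PosSemidef} : ℝ) = S.card := by
    rw [Nat.card_eq_fintype_card, Fintype.card_subtype]
  rw [hcardS]
  have hmark : (S.card : ℝ) * Real.exp (s * (B * θ')) ≤
      ∑ x : Fin B → Fin k → Alt n, (trace (NormedSpace.exp (∑ b, s • A (x b)))).re := by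
    rw [← nsmul_eq_mul]
    refine (Finset.card_nsmul_le_sum S (fun x : Fin B → Fin k → Alt n =>
      (trace (NormedSpace.exp (∑ b, s • A (x b)))).re) _ fun x hx => ?_).trans
      (Finset.sum_le_sum_of_subset_of_nonneg (Finset.subset_univ S) fun x _ _ => ?_)
    · have hx2 := (Finset.mem_filter.1 hx).2
      have hsH : (∑ b, A (x b)).IsHermitian := by
        unfold Matrix.IsHermitian
        rw [conjTranspose_sum]
        exact Finset.sum_congr rfl fun b _ => hAH _
      obtain ⟨i, hi⟩ : ∃ i, B * θ' < hsH.eigenvalues i := by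
        by_contra hcon
        push Not at hcon
        exact hx2 (posSemidef_of_eigenvalues_le hsH _ hcon)
      rw [← Finset.smul_sum, trace_exp_smul hsH]
      calc Real.exp (s * (B * θ')) ≤ Real.exp (s * hsH.eigenvalues i) :=
            Real.exp_le_exp.2 (mul_le_mul_of_nonneg_left hi.le hs)
        _ ≤ _ := Finset.single_le_sum (f := fun i => Real.exp (s * hsH.eigenvalues i))
            (fun i _ => (Real.exp_pos _).le) (Finset.mem_univ i)
    · have hsH : (∑ b, s • A (x b)).IsHermitian := by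
        unfold Matrix.IsHermitian
        rw [conjTranspose_sum]
        exact Finset.sum_congr rfl fun b _ => hZ _
      rw [trace_exp hsH]
      exact Finset.sum_nonneg fun i _ => (Real.exp_pos _).le
  have h3 := hmark.trans hch
  rw [← le_div_iff₀ (Real.exp_pos _)] at h3
  refine h3.trans (le_of_eq ?_)
  rw [Real.exp_neg, mul_pow]
  field_simp

end Pool.Agent.Helper6.FixK
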