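import Pool.Agent.Helper90.W1
import Pool.Agent.Helper90.W2
import Pool.Agent.Helper17.W3

/-! Combinatorial inputs (proved by helper90 and helper17), re-exported. -/

namespace Pool.Agent.Helper6.FixK

/-- number of words that reduce to the identity -/
theorem trivial_words (k l : ℕ) (hk : 0 < k) :
    ((Finset.univ.filter fun w : Fin l → Fin k × Bool =>
      FreeGroup.mk (List.ofFn w) = 1).card : ℝ) ≤ 2 ^ l * Real.sqrt (2 * k) ^ l :=
  Pool.Agent.Helper90.W1.trivial_words k l hk

/-- many fixed points of a word in random permutations are unlikely -/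
theorem fixed_points_bound {n k : ℕ} (g : FreeGroup (Fin k)) (hg : g ≠ 1) (m f F : ℕ)
    (hm : g.toWord.length ≤ m) (hV : 2 * (f * (m + 1)) ≤ n) (hF : 2 * (f * (m + 1)) ≤ F)
    (hF0 : 0 < F) :
    (Nat.card {x : Fin k → Equiv.Perm (Fin n) //
      F ≤ (Finset.univ.filter fun i : Fin n => FreeGroup.lift x g i = i).card} : ℝ) ≤
      (n.factorial : ℝ) ^ k * (4 * m * (f * (m + 1)) / F) ^ f :=
  Pool.Agent.Helper90.W2.fixed_points_bound g hg m f F hm hV hF hF0

/-- tuples mapped into themselves by a permutation -/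
theorem tuple_sum {α : Type} [Fintype α] [DecidableEq α] (g : Equiv.Perm α) (r : ℕ) (q lam : ℝ)
    (hq : 0 < q) (hq1 : q ≤ 1) (hl : 1 ≤ lam) :
    ∑ a : Fin r ↪ α, q ^ (Finset.univ.filter fun i : Fin r => ∀ j, g (a i) ≠ a j).card ≤
      ((Finset.univ.filter fun i => g i = i).card + Fintype.card α * (q * lam) + r / (q * lam) +
        2 * r * lam + r * q * lam ^ 2) ^ r :=
  Pool.Agent.Helper17.W3.tuple_sum g r q lam hq hq1 hl

end Pool.Agent.Helper6.FixK
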