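import Pool.Agent.Helper6.FixK.Kernel
import Pool.Agent.Helper6.FixK.Packets
import Pool.Agent.Helper15.An.Count

/-! Character bound at an exact level. -/

set_option linter.unusedSectionVars false

namespace Pool.Agent.Helper6.FixK

open Matrix Equiv Pool.Agent.Helper15.An
open scoped ComplexOrder

variable {n D : ℕ}

theorem sum_kern {ρ : Perm (Fin n) →* Matrix (Fin D) (Fin D) ℂ} (hρ : IsIrr ρ)
    (w : Fin D → ℂ) (g : Perm (Fin n)) :
    ∑ σ : Perm (Fin n), kern ρ w σ (g * σ) =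
      (Fintype.card (Perm (Fin n)) : ℂ) * nrm2 w / D * trace (ρ g) := by
  have h1 := hρ.schur (vecMulVec w (star w))
  have h2 : ∀ σ, kern ρ w σ (g * σ) = trace (ρ g * (ρ σ * vecMulVec w (star w) * (ρ σ)ᴴ)) := by
    intro σ
    have h3 : ρ σ * vecMulVec w (star w) * (ρ σ)ᴴ = vecMulVec (ρ σ *ᵥ w) (star (ρ σ *ᵥ w)) := by
      rw [Matrix.mul_vecMulVec, Matrix.vecMulVec_mul, Matrix.star_mulVec]
    rw [h3, Matrix.mul_vecMulVec, Matrix.trace_vecMulVec]
    unfold kern
    rw [map_mul, ← Matrix.mulVec_mulVec, dotProduct_comm]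
  simp_rw [h2]
  rw [← Matrix.trace_sum, ← Finset.mul_sum, h1, Matrix.mul_smul, Matrix.mul_one,
    Matrix.trace_smul, Matrix.trace_vecMulVec, smul_eq_mul]
  have h4 : w ⬝ᵥ star w = (nrm2 w : ℂ) := by
    rw [dotProduct_comm]
    exact star_dot_self w
  rw [h4]

/-- the tuple of images of the initial points -/
def tupleOf {r : ℕ} (hr : r ≤ n) (σ : Perm (Fin n)) : Fin r ↪ Fin n :=
  (Fin.castLEEmb hr).trans σ.toEmbedding

theorem tupleOf_apply {r : ℕ} (hr : r ≤ n) (σ : Perm (Fin n)) (i : Fin r) :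
    tupleOf hr σ i = σ (Fin.castLE hr i) := rfl

theorem exists_perm_of_embedding {r : ℕ} (hr : r ≤ n) (a : Fin r ↪ Fin n) :
    ∃ σ : Perm (Fin n), tupleOf hr σ = a := by
  have h := (Equiv.Perm.isMultiplyPretransitive (Fin n) r).exists_smul_eq (Fin.castLEEmb hr) a
  obtain ⟨σ, hσ⟩ := h
  refine ⟨σ, ?_⟩
  rw [← hσ]
  ext i
  rfl

theorem sum_tupleOf {r : ℕ} (hr : r ≤ n) (G : (Fin r ↪ Fin n) → ℝ) :
    (n.descFactorial r : ℝ) * ∑ σ : Perm (Fin n), G (tupleOf hr σ) =
      (Fintype.card (Perm (Fin n)) : ℝ) * ∑ a, G a := by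
  classical
  set c := (Finset.univ.filter fun σ : Perm (Fin n) =>
    tupleOf hr σ = Fin.castLEEmb hr).card with hc
  have hfib : ∀ a : Fin r ↪ Fin n, (Finset.univ.filter fun σ : Perm (Fin n) =>
      tupleOf hr σ = a).card = c := by
    intro a
    obtain ⟨τ, hτ⟩ := exists_perm_of_embedding hr a
    rw [hc]
    refine (Finset.card_bij (fun σ _ => τ * σ) ?_ ?_ ?_).symm
    · intro σ hσ
      rw [Finset.mem_filter] at hσ ⊢
      refine ⟨Finset.mem_univ _, ?_⟩
      rw [← hτ]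
      ext i
      have h1 := congrArg (fun f => f i) hσ.2
      simp only [tupleOf_apply] at h1 ⊢
      rw [Perm.mul_apply, h1]
      rfl
    · intro x _ y _ hxy
      exact mul_left_cancel hxy
    · intro σ hσ
      rw [Finset.mem_filter] at hσ
      refine ⟨τ⁻¹ * σ, ?_, by simp⟩
      rw [Finset.mem_filter]
      refine ⟨Finset.mem_univ _, ?_⟩
      ext i
      have h1 := congrArg (fun f => f i) hσ.2
      rw [← hτ] at h1
      simp only [tupleOf_apply] at h1 ⊢
      rw [Perm.mul_apply, h1, show τ⁻¹ (τ (Fin.castLE hr i)) = Fin.castLE hr i from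
        Equiv.symm_apply_apply τ _]
      rfl
  have hsum : ∀ H : (Fin r ↪ Fin n) → ℝ, ∑ σ : Perm (Fin n), H (tupleOf hr σ) = c * ∑ a, H a := by
    intro H
    rw [← Finset.sum_fiberwise (s := Finset.univ) (g := fun σ => tupleOf hr σ),
      Finset.mul_sum]
    refine Finset.sum_congr rfl fun a _ => ?_
    rw [← hfib a, ← nsmul_eq_mul, ← Finset.sum_const]
    refine Finset.sum_congr rfl fun σ hσ => ?_
    rw [(Finset.mem_filter.1 hσ).2]
  have h1 := hsum fun _ => 1
  simp only [Finset.sum_const, Finset.card_univ, nsmul_eq_mul, mul_one] at h1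
  rw [Fintype.card_embedding_eq, Fintype.card_fin, Fintype.card_fin] at h1
  rw [hsum G, h1]
  ring

theorem outc_eq {r : ℕ} (hr : r ≤ n) (g σ : Perm (Fin n)) :
    outc r (σ⁻¹ * g * σ) = (Finset.univ.filter fun i : Fin r =>
      ∀ j, g (tupleOf hr σ i) ≠ tupleOf hr σ j).card := by
  classical
  unfold outc
  refine (Finset.card_bij (fun (i : Fin r) _ => Fin.castLE hr i) ?_ ?_ ?_).symm
  · intro i hi
    rw [Finset.mem_filter] at hi ⊢
    refine ⟨Finset.mem_univ _, i.2, fun hcon => ?_⟩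
    refine hi.2 ⟨_, hcon⟩ ?_
    rw [tupleOf_apply, tupleOf_apply]
    have h1 : Fin.castLE hr ⟨_, hcon⟩ = (σ⁻¹ * g * σ) (Fin.castLE hr i) := Fin.ext rfl
    rw [h1, Perm.mul_apply, Perm.mul_apply]
    exact (Equiv.apply_symm_apply σ _).symm
  · intro a _ b _ hab
    exact Fin.castLE_injective hr hab
  · intro i hi
    rw [Finset.mem_filter] at hi
    refine ⟨⟨i.val, hi.2.1⟩, ?_, Fin.ext rfl⟩
    rw [Finset.mem_filter]
    refine ⟨Finset.mem_univ _, fun j hj => hi.2.2 ?_⟩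
    rw [tupleOf_apply, tupleOf_apply] at hj
    have h2 : Fin.castLE hr ⟨i.val, hi.2.1⟩ = i := Fin.ext rfl
    rw [h2] at hj
    rw [Perm.mul_apply, Perm.mul_apply, hj]
    rw [show σ⁻¹ (σ (Fin.castLE hr j)) = Fin.castLE hr j from Equiv.symm_apply_apply σ _]
    exact j.2

theorem desc_ge (r : ℕ) (h : 2 * r ≤ n) : ((n : ℝ) / 2) ^ r ≤ n.descFactorial r := by
  have h1 : ((n + 1 - r : ℕ) : ℝ) ^ r ≤ (n.descFactorial r : ℝ) := by
    exact_mod_cast Nat.pow_sub_le_descFactorial n r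
  refine le_trans (pow_le_pow_left₀ (by positivity) ?_ r) h1
  rw [Nat.cast_sub (by omega)]
  push_cast
  have : (2 * (r : ℝ)) ≤ n := by exact_mod_cast h
  linarith

/-- character bound for an irreducible representation with exact level `r` with respect to the
full stabilizers -/
theorem char_bound_full {r : ℕ} (hr : 0 < r) (h4 : 4 * r ≤ n)
    {ρ : Perm (Fin n) →* Matrix (Fin D) (Fin D) ℂ} (hρ : IsIrr ρ) (w : Fin D → ℂ) (hw0 : w ≠ 0)
    (hw : ∀ h : Perm (Fin n), (∀ i : Fin n, i.val < r → h i = i) → ρ h *ᵥ w = w)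
    (hno : ∀ v : Fin D → ℂ, (∀ h : Perm (Fin n), (∀ i : Fin n, i.val + 1 < r → h i = i) →
      ρ h *ᵥ v = v) → v = 0) (g : Perm (Fin n)) :
    ‖trace (ρ g)‖ ≤ D * (2 * fixc g / n + 14 * Real.sqrt (r / n)) ^ r := by
  classical
  have hrn : r ≤ n := by omega
  have hn0 : (0 : ℝ) < n := by
    have : 0 < n := by omega
    exact_mod_cast this
  have hr0 : (0 : ℝ) < r := by exact_mod_cast hr
  have hr1 : (1 : ℝ) ≤ r := by exact_mod_cast hr
  have h4r : 4 * (r : ℝ) ≤ n := by exact_mod_cast h4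
  set q : ℝ := (r : ℝ) / ((n : ℝ) - 2 * r + 1) with hq
  have hden : (0 : ℝ) < (n : ℝ) - 2 * r + 1 := by linarith
  have hq0 : 0 < q := by positivity
  have hq2 : q ≤ 2 * (r / n) := by
    rw [hq, div_le_iff₀ hden]
    have : 2 * ((r : ℝ) / n) * ((n : ℝ) - 2 * r + 1) ≥ 2 * ((r : ℝ) / n) * (n / 2) := by
      refine mul_le_mul_of_nonneg_left ?_ (by positivity)
      linarith
    have h5 : 2 * ((r : ℝ) / n) * (n / 2) = r := by field_simp
    linarith
  have hq1 : q ≤ 1 := by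
    refine hq2.trans ?_
    rw [← mul_div_assoc, div_le_one hn0]
    linarith
  have hqge : (r : ℝ) / n ≤ q := by
    rw [hq]
    exact div_le_div_of_nonneg_left hr0.le hden (by linarith)
  have hn2 : 0 < nrm2 w := by
    rcases (nrm2_nonneg w).eq_or_lt with h | h
    · exfalso
      apply hw0
      ext i
      have h1 : ‖w i‖ ^ 2 ≤ 0 := by
        rw [h]
        exact Finset.single_le_sum (f := fun i => ‖w i‖ ^ 2) (fun i _ => by positivity)
          (Finset.mem_univ i)
      have h2 : ‖w i‖ = 0 := by nlinarith [norm_nonneg (w i)]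
      simpa using h2
    · exact h
  have hD : (0 : ℝ) < D := by exact_mod_cast hρ.pos
  -- sum of the kernels
  have h1 : (Fintype.card (Perm (Fin n)) : ℝ) * ‖trace (ρ g)‖ ≤
      D * ∑ σ : Perm (Fin n), q ^ outc r (σ⁻¹ * g⁻¹ * σ) := by
    have h2 := congrArg norm (sum_kern hρ w g)
    rw [norm_mul, norm_div, norm_mul, Complex.norm_natCast, Complex.norm_natCast,
      Complex.norm_real, Real.norm_of_nonneg hn2.le] at h2
    have h3 : ‖∑ σ : Perm (Fin n), kern ρ w σ (g * σ)‖ ≤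
        (∑ σ : Perm (Fin n), q ^ outc r (σ⁻¹ * g⁻¹ * σ)) * nrm2 w := by
      rw [Finset.sum_mul]
      refine (norm_sum_le _ _).trans (Finset.sum_le_sum fun σ _ => ?_)
      have h5 := kern_bound r hw hno hρ.unit (by omega) (g * σ) _ σ rfl
      have h6 : (g * σ)⁻¹ * σ = σ⁻¹ * g⁻¹ * σ := by group
      rw [h6] at h5
      exact h5
    rw [h2, div_mul_eq_mul_div, div_le_iff₀ hD] at h3
    have h7 : ((Fintype.card (Perm (Fin n)) : ℝ) * ‖trace (ρ g)‖) * nrm2 w ≤
        (D * ∑ σ : Perm (Fin n), q ^ outc r (σ⁻¹ * g⁻¹ * σ)) * nrm2 w := by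
      calc _ = (Fintype.card (Perm (Fin n)) : ℝ) * nrm2 w * ‖trace (ρ g)‖ := by ring
        _ ≤ _ := h3
        _ = _ := by ring
    exact le_of_mul_le_mul_right h7 hn2
  -- pass to tuples
  set lam : ℝ := Real.sqrt (n / r) with hlam
  have hlam1 : 1 ≤ lam := by
    rw [hlam, Real.one_le_sqrt, one_le_div hr0]
    linarith
  have hlam2 : lam ^ 2 = n / r := by rw [hlam, Real.sq_sqrt (by positivity)]
  have hlam0 : 0 < lam := by linarith
  set S : ℝ := r * lam with hS
  have hSn : n / lam = S := by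
    rw [div_eq_iff hlam0.ne', hS, mul_assoc, ← sq, hlam2]
    field_simp
  have hrS : (r : ℝ) ≤ S := by
    rw [hS]; nlinarith
  have h2 := tuple_sum g⁻¹ r q lam hq0 hq1 hlam1
  set SA := ∑ a : Fin r ↪ Fin n,
    q ^ (Finset.univ.filter fun i : Fin r => ∀ j, g⁻¹ (a i) ≠ a j).card with hSA
  have hfix : ((Finset.univ.filter fun i => g⁻¹ i = i).card : ℝ) = fixc g := by
    congr 1
    unfold fixc
    congr 1
    ext i
    simp only [Finset.mem_filter, Finset.mem_univ, true_and]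
    rw [Perm.inv_eq_iff_eq]
    exact eq_comm
  have h3 : SA ≤ (fixc g + 7 * S) ^ r := by
    refine h2.trans (pow_le_pow_left₀ (by positivity) ?_ r)
    rw [hfix, Fintype.card_fin]
    have e1 : (n : ℝ) * (q * lam) ≤ 2 * S := by
      calc (n : ℝ) * (q * lam) ≤ n * (2 * (r / n) * lam) := by gcongr
        _ = 2 * S := by rw [hS]; field_simp
    have e2 : (r : ℝ) / (q * lam) ≤ S := by
      rw [← hSn, ← div_div]
      refine div_le_div_of_nonneg_right ?_ hlam0.le
      rw [div_le_iff₀ hq0]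
      calc (r : ℝ) = n * (r / n) := by field_simp
        _ ≤ n * q := by gcongr
    have e3 : 2 * (r : ℝ) * lam = 2 * S := by rw [hS]; ring
    have e4 : (r : ℝ) * q * lam ^ 2 ≤ 2 * S := by
      rw [hlam2]
      calc (r : ℝ) * q * (n / r) ≤ r * (2 * (r / n)) * (n / r) := by gcongr
        _ = 2 * r := by field_simp
        _ ≤ 2 * S := by linarith
    linarith
  have h5 := sum_tupleOf hrn (fun a => q ^ (Finset.univ.filter fun i : Fin r =>
    ∀ j, g⁻¹ (a i) ≠ a j).card)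
  rw [← hSA] at h5
  have h6 : ∑ σ : Perm (Fin n), q ^ outc r (σ⁻¹ * g⁻¹ * σ) = ∑ σ : Perm (Fin n),
      q ^ (Finset.univ.filter fun i : Fin r =>
        ∀ j, g⁻¹ (tupleOf hrn σ i) ≠ tupleOf hrn σ j).card :=
    Finset.sum_congr rfl fun σ _ => by rw [outc_eq hrn]
  rw [h6] at h1
  have hG : (0 : ℝ) < Fintype.card (Perm (Fin n)) := by exact_mod_cast Fintype.card_pos
  have hdesc := desc_ge r (show 2 * r ≤ n by omega)
  have hdpos : (0 : ℝ) < n.descFactorial r := lt_of_lt_of_le (by positivity) hdesc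
  -- combine
  have h7 : ‖trace (ρ g)‖ * n.descFactorial r ≤ D * (fixc g + 7 * S) ^ r := by
    have h8 : ((Fintype.card (Perm (Fin n)) : ℝ) * ‖trace (ρ g)‖) * n.descFactorial r ≤
        (D * (fixc g + 7 * S) ^ r) * Fintype.card (Perm (Fin n)) := by
      calc _ ≤ (D * ∑ σ : Perm (Fin n), q ^ (Finset.univ.filter fun i : Fin r =>
            ∀ j, g⁻¹ (tupleOf hrn σ i) ≠ tupleOf hrn σ j).card) * n.descFactorial r :=
            mul_le_mul_of_nonneg_right h1 hdpos.le
        _ = D * (Fintype.card (Perm (Fin n)) * SA) := by rw [← h5]; ring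
        _ ≤ D * (Fintype.card (Perm (Fin n)) * (fixc g + 7 * S) ^ r) := by gcongr
        _ = _ := by ring
    have h9 : (‖trace (ρ g)‖ * n.descFactorial r) * Fintype.card (Perm (Fin n)) ≤
        (D * (fixc g + 7 * S) ^ r) * Fintype.card (Perm (Fin n)) := by
      refine le_trans (le_of_eq ?_) h8
      ring
    exact le_of_mul_le_mul_right h9 hG
  have h8 : (2 * (fixc g : ℝ) / n + 14 * Real.sqrt (r / n)) = (fixc g + 7 * S) / (n / 2) := by
    have h9 : Real.sqrt ((r : ℝ) / n) = S / n := by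
      rw [← hSn, hlam, Real.sqrt_div' _ hn0.le, Real.sqrt_div' _ hr0.le]
      have hsr : 0 < Real.sqrt r := Real.sqrt_pos.2 hr0
      have hsn : 0 < Real.sqrt n := Real.sqrt_pos.2 hn0
      field_simp
    rw [h9]
    field_simp
    ring
  rw [h8, div_pow]
  rw [← mul_div_assoc, le_div_iff₀ (by positivity)]
  calc ‖trace (ρ g)‖ * ((n : ℝ) / 2) ^ r ≤ ‖trace (ρ g)‖ * n.descFactorial r := by gcongr
    _ ≤ _ := h7

end Pool.Agent.Helper6.FixK
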