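import Pool.Agent.Helper15.An.Fam

/-! Kernel bound for a representation with an exact level. -/

set_option linter.unusedSectionVars false

namespace Pool.Agent.Helper6.FixK

open Matrix Equiv Pool.Agent.Helper15.An
open scoped ComplexOrder

variable {n D : ℕ}

/-- matrix coefficient kernel -/
noncomputable def kern (ρ : Perm (Fin n) →* Matrix (Fin D) (Fin D) ℂ) (w : Fin D → ℂ)
    (σ τ : Perm (Fin n)) : ℂ := star (ρ σ *ᵥ w) ⬝ᵥ (ρ τ *ᵥ w)

/-- number of initial points which leave the initial segment -/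
def outc (r : ℕ) (h : Perm (Fin n)) : ℕ :=
  (Finset.univ.filter fun i : Fin n => i.val < r ∧ ¬ (h i).val < r).card

theorem norm_dot_le (a b : Fin D → ℂ) : ‖star a ⬝ᵥ b‖ ^ 2 ≤ nrm2 a * nrm2 b := by
  have h1 := norm_inner_le_norm (𝕜 := ℂ) (WithLp.toLp 2 a) (WithLp.toLp 2 b)
  have h2 : inner ℂ (WithLp.toLp 2 a) (WithLp.toLp 2 b) = star a ⬝ᵥ b := by
    rw [EuclideanSpace.inner_eq_star_dotProduct, dotProduct_comm]
  have h3 : ∀ c : Fin D → ℂ, ‖(WithLp.toLp 2 c : EuclideanSpace ℂ (Fin D))‖ ^ 2 = nrm2 c := by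
    intro c
    rw [EuclideanSpace.norm_sq_eq]
    rfl
  rw [h2] at h1
  calc ‖star a ⬝ᵥ b‖ ^ 2 ≤ (‖(WithLp.toLp 2 a : EuclideanSpace ℂ (Fin D))‖ *
        ‖(WithLp.toLp 2 b : EuclideanSpace ℂ (Fin D))‖) ^ 2 :=
        pow_le_pow_left₀ (norm_nonneg _) h1 2
    _ = nrm2 a * nrm2 b := by rw [mul_pow, h3, h3]

section kern
variable {ρ : Perm (Fin n) →* Matrix (Fin D) (Fin D) ℂ} (hu : ∀ g, (ρ g)ᴴ * ρ g = 1)
  {w : Fin D → ℂ}
include hu

theorem nrm2_rho (g : Perm (Fin n)) (v : Fin D → ℂ) : nrm2 (ρ g *ᵥ v) = nrm2 v :=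
  nrm2_unitary (hu g) v

theorem kern_mul_left (g σ τ : Perm (Fin n)) : kern ρ w (g * σ) (g * τ) = kern ρ w σ τ := by
  unfold kern
  rw [map_mul, map_mul, ← Matrix.mulVec_mulVec, ← Matrix.mulVec_mulVec, Matrix.star_mulVec,
    ← Matrix.dotProduct_mulVec, Matrix.mulVec_mulVec, hu g, Matrix.one_mulVec]

theorem norm_kern_le (σ τ : Perm (Fin n)) : ‖kern ρ w σ τ‖ ≤ nrm2 w := by
  have h1 := norm_dot_le (ρ σ *ᵥ w) (ρ τ *ᵥ w)
  rw [nrm2_rho hu, nrm2_rho hu, ← sq] at h1
  exact (sq_le_sq₀ (norm_nonneg _) (nrm2_nonneg w)).1 h1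

end kern

theorem kern_right (ρ : Perm (Fin n) →* Matrix (Fin D) (Fin D) ℂ) {w : Fin D → ℂ}
    (σ τ h : Perm (Fin n)) (hh : ρ h *ᵥ w = w) : kern ρ w σ (τ * h) = kern ρ w σ τ := by
  unfold kern
  rw [map_mul, ← Matrix.mulVec_mulVec, hh]

section level
variable (r : ℕ) {ρ : Perm (Fin n) →* Matrix (Fin D) (Fin D) ℂ} {w : Fin D → ℂ}
  (hw : ∀ h : Perm (Fin n), (∀ i : Fin n, i.val < r → h i = i) → ρ h *ᵥ w = w)
  (hno : ∀ v : Fin D → ℂ, (∀ h : Perm (Fin n), (∀ i : Fin n, i.val + 1 < r → h i = i) →
    ρ h *ᵥ v = v) → v = 0)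
include hw hno

/-- the vectors obtained by moving one coordinate sum to zero -/
theorem sum_swap_eq_zero (hrn : r ≤ n) (i0 : Fin n) (hi0 : i0.val < r) :
    ∑ c ∈ Finset.univ.filter (fun c : Fin n => c = i0 ∨ r ≤ c.val), ρ (swap i0 c) *ᵥ w = 0 := by
  classical
  set C := Finset.univ.filter (fun c : Fin n => c = i0 ∨ r ≤ c.val) with hC
  have hmem : ∀ c, c ∈ C ↔ (c = i0 ∨ r ≤ c.val) := fun c => by
    rw [hC, Finset.mem_filter]; simp
  set v := ∑ c ∈ C, ρ (swap i0 c) *ᵥ w with hv
  -- `v` is fixed by permutations fixing the other coordinates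
  have hfix : ∀ h : Perm (Fin n), (∀ i : Fin n, i.val < r → i ≠ i0 → h i = i) → ρ h *ᵥ v = v := by
    intro h hh
    have hnot : ∀ c, c ∉ C → h c = c := by
      intro c hc
      rw [hmem, not_or] at hc
      exact hh c (not_le.1 hc.2) hc.1
    have hmap : ∀ c, c ∈ C → h c ∈ C := by
      intro c hc
      by_contra hcon
      have h1 := hnot _ hcon
      have h2 := h.injective h1
      rw [h2] at hcon
      exact hcon hc
    have hstep : ∀ c ∈ C, ρ h *ᵥ (ρ (swap i0 c) *ᵥ w) = ρ (swap i0 (h c)) *ᵥ w := by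
      intro c hc
      have h3 : h * swap i0 c = swap i0 (h c) * (swap i0 (h c) * h * swap i0 c) := by
        rw [mul_assoc (swap i0 (h c)) h, ← mul_assoc (swap i0 (h c)) (swap i0 (h c)),
          Equiv.swap_mul_self, one_mul]
      rw [Matrix.mulVec_mulVec, ← map_mul, h3, map_mul, ← Matrix.mulVec_mulVec]
      congr 1
      apply hw
      intro i hi
      rw [Perm.mul_apply, Perm.mul_apply]
      by_cases hii : i = i0
      · rw [hii, swap_apply_left, swap_apply_right]
      · have hiC : i ∉ C := by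
          rw [hmem, not_or]
          exact ⟨hii, not_le.2 hi⟩
        have h4 : i ≠ c := fun h => hiC (h ▸ hc)
        have h5 : i ≠ h c := fun h => hiC (h ▸ hmap c hc)
        rw [swap_apply_of_ne_of_ne hii h4, hnot i hiC, swap_apply_of_ne_of_ne hii h5]
    rw [hv, Matrix.mulVec_sum, Finset.sum_congr rfl hstep]
    refine Finset.sum_bij (fun c _ => h c) (fun c hc => hmap c hc) (fun a _ b _ hab =>
      h.injective hab) (fun c hc => ?_) (fun c hc => rfl)
    refine ⟨h⁻¹ c, ?_, by simp⟩
    by_contra hcon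
    have h1 := hnot _ hcon
    rw [show h (h⁻¹ c) = c from Equiv.apply_symm_apply h c] at h1
    rw [← h1] at hcon
    exact hcon hc
  -- conjugate to the last coordinate
  have hrn' : r - 1 < n := by omega
  set l : Fin n := ⟨r - 1, hrn'⟩ with hl
  have h0 := hno (ρ (swap i0 l) *ᵥ v) (by
    intro h hh
    have h1 : h * swap i0 l = swap i0 l * (swap i0 l * h * swap i0 l) := by
      rw [mul_assoc (swap i0 l) h, ← mul_assoc (swap i0 l) (swap i0 l), Equiv.swap_mul_self, one_mul]
    rw [Matrix.mulVec_mulVec, ← map_mul, h1, map_mul, ← Matrix.mulVec_mulVec]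
    congr 1
    apply hfix
    intro i hi hne
    rw [Perm.mul_apply, Perm.mul_apply]
    by_cases hil : i = l
    · rw [hil, swap_apply_right]
      have h2 : h i0 = i0 := by
        apply hh
        have h3 : i0 ≠ l := by rw [← hil]; exact hne.symm
        have h4 : i0.val ≠ r - 1 := fun h => h3 (Fin.ext h)
        omega
      rw [h2, swap_apply_left]
    · rw [swap_apply_of_ne_of_ne hne hil]
      have h2 : h i = i := by
        apply hh
        have h4 : i.val ≠ r - 1 := fun h => hil (Fin.ext h)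
        omega
      rw [h2, swap_apply_of_ne_of_ne hne hil])
  have h2 := congrArg (fun u => ρ (swap i0 l) *ᵥ u) h0
  simp only [Matrix.mulVec_mulVec, ← map_mul, Equiv.swap_mul_self, map_one, Matrix.one_mulVec,
    Matrix.mulVec_zero] at h2
  exact h2

variable (hu : ∀ g, (ρ g)ᴴ * ρ g = 1)
include hu

theorem kern_bound (h2r : 2 * r ≤ n) (τ : Perm (Fin n)) : ∀ (u : ℕ) (σ : Perm (Fin n)),
    outc r (τ⁻¹ * σ) = u →
    ‖kern ρ w σ τ‖ ≤ ((r : ℝ) / ((n : ℝ) - 2 * r + 1)) ^ u * nrm2 w := by
  classical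
  have hden : (0 : ℝ) < (n : ℝ) - 2 * r + 1 := by
    have : (2 * (r : ℝ)) ≤ n := by exact_mod_cast h2r
    linarith
  intro u
  induction u with
  | zero =>
    intro σ _
    rw [pow_zero, one_mul]
    exact norm_kern_le hu σ τ
  | succ u ih =>
    intro σ hσ
    -- pick a coordinate which leaves
    obtain ⟨i0, hi0⟩ : ∃ i0 : Fin n, i0.val < r ∧ ¬ ((τ⁻¹ * σ) i0).val < r := by
      by_contra hcon
      push Not at hcon
      have : outc r (τ⁻¹ * σ) = 0 := by
        unfold outc
        rw [Finset.card_eq_zero, Finset.filter_eq_empty_iff]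
        intro i _ h
        exact h.2 (hcon i h.1)
      omega
    set C := Finset.univ.filter (fun c : Fin n => c = i0 ∨ r ≤ c.val) with hC
    have hmem : ∀ c, c ∈ C ↔ (c = i0 ∨ r ≤ c.val) := fun c => by
      rw [hC, Finset.mem_filter]; simp
    have hsum : ∑ c ∈ C, kern ρ w (σ * swap i0 c) τ = 0 := by
      have h1 := sum_swap_eq_zero r hw hno (by omega) i0 hi0.1
      unfold kern
      have h2 : ∀ c, ρ (σ * swap i0 c) *ᵥ w = ρ σ *ᵥ (ρ (swap i0 c) *ᵥ w) := fun c => by
        rw [map_mul, Matrix.mulVec_mulVec]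
      simp_rw [h2]
      rw [← sum_dotProduct, ← star_sum, ← Matrix.mulVec_sum, h1, Matrix.mulVec_zero, star_zero,
        zero_dotProduct]
    -- good values keep the kernel
    set Gd := C.filter (fun c => ¬ ((τ⁻¹ * σ) c).val < r) with hGd
    set Bd := C.filter (fun c => ((τ⁻¹ * σ) c).val < r) with hBd
    have hgood : ∀ c ∈ Gd, kern ρ w (σ * swap i0 c) τ = kern ρ w σ τ := by
      intro c hc
      have hc2 : ¬ ((τ⁻¹ * σ) c).val < r := (Finset.mem_filter.1 hc).2
      set t := swap (σ i0) (σ c) with ht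
      have h1 : σ * swap i0 c = t * σ := by
        rw [ht, ← Equiv.mul_swap_eq_swap_mul]
      have h2 : τ = t * (τ * (τ⁻¹ * t * τ)) := by
        rw [← mul_assoc τ, ← mul_assoc τ, mul_inv_cancel, one_mul, ← mul_assoc, ht,
          Equiv.swap_mul_self, one_mul]
      have h3 : ρ (τ⁻¹ * t * τ) *ᵥ w = w := by
        apply hw
        intro i hi
        have h4 : τ⁻¹ * t * τ = swap ((τ⁻¹ * σ) i0) ((τ⁻¹ * σ) c) := by
          rw [Perm.mul_apply, Perm.mul_apply, ht]
          have := Equiv.mul_swap_eq_swap_mul τ⁻¹ (σ i0) (σ c)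
          rw [this, mul_assoc, inv_mul_cancel, mul_one]
        rw [h4]
        refine swap_apply_of_ne_of_ne ?_ ?_
        · intro h; rw [h] at hi; exact hi0.2 hi
        · intro h; rw [h] at hi; exact hc2 hi
      calc kern ρ w (σ * swap i0 c) τ = kern ρ w (t * σ) (t * (τ * (τ⁻¹ * t * τ))) := by
            rw [h1, ← h2]
        _ = kern ρ w σ (τ * (τ⁻¹ * t * τ)) := kern_mul_left hu t σ _
        _ = kern ρ w σ τ := kern_right ρ σ τ _ h3
    -- bad values decrease the count
    have hbad : ∀ c ∈ Bd, ‖kern ρ w (σ * swap i0 c) τ‖ ≤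
        ((r : ℝ) / ((n : ℝ) - 2 * r + 1)) ^ u * nrm2 w := by
      intro c hc
      apply ih
      have hcC := (hmem c).1 (Finset.mem_filter.1 hc).1
      have hc2 : ((τ⁻¹ * σ) c).val < r := (Finset.mem_filter.1 hc).2
      have hci : c ≠ i0 := by
        rintro rfl
        exact hi0.2 hc2
      have hcr : r ≤ c.val := by
        rcases hcC with h | h
        · exact absurd h hci
        · exact h
      have h1 : (Finset.univ.filter fun i : Fin n => i.val < r ∧
          ¬ ((τ⁻¹ * (σ * swap i0 c)) i).val < r) =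
          (Finset.univ.filter fun i : Fin n => i.val < r ∧ ¬ ((τ⁻¹ * σ) i).val < r).erase i0 := by
        ext i
        rw [Finset.mem_erase, Finset.mem_filter, Finset.mem_filter]
        simp only [Finset.mem_univ, true_and]
        rw [← mul_assoc, Perm.mul_apply]
        constructor
        · rintro ⟨h2, h3⟩
          have h4 : i ≠ i0 := by
            rintro rfl
            rw [swap_apply_left] at h3
            exact h3 hc2
          have h5 : i ≠ c := by
            rintro rfl
            omega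
          rw [swap_apply_of_ne_of_ne h4 h5] at h3
          exact ⟨h4, h2, h3⟩
        · rintro ⟨h4, h2, h3⟩
          have h5 : i ≠ c := by
            rintro rfl
            omega
          rw [swap_apply_of_ne_of_ne h4 h5]
          exact ⟨h2, h3⟩
      unfold outc at hσ ⊢
      rw [h1, Finset.card_erase_of_mem, hσ]
      · rfl
      · rw [Finset.mem_filter]
        exact ⟨Finset.mem_univ _, hi0⟩
    -- counting
    have hBdcard : Bd.card ≤ r := by
      have h1 : Bd.card ≤ (Finset.range r).card := by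
        refine Finset.card_le_card_of_injOn (fun c => ((τ⁻¹ * σ) c).val) ?_ ?_
        · intro c hc
          rw [Finset.mem_coe] at hc
          simp only [Finset.coe_range, Set.mem_Iio]
          exact (Finset.mem_filter.1 hc).2
        · intro a _ b _ hab
          exact (τ⁻¹ * σ).injective (Fin.ext hab)
      rwa [Finset.card_range] at h1
    have hCcard : n - r + 1 ≤ C.card := by
      have h1 : insert i0 (Finset.univ.filter fun c : Fin n => r ≤ c.val) ⊆ C := by
        intro c hc
        rw [Finset.mem_insert, Finset.mem_filter] at hc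
        rw [hmem]
        rcases hc with h | h
        · exact Or.inl h
        · exact Or.inr h.2
      have h2 := Finset.card_le_card h1
      rw [Finset.card_insert_of_notMem (by
        rw [Finset.mem_filter]; rintro ⟨-, h⟩; omega)] at h2
      have h3 : n - r ≤ (Finset.univ.filter fun c : Fin n => r ≤ c.val).card := by
        have h4 : (Finset.univ.filter fun c : Fin n => r ≤ c.val) =
            (Finset.univ.filter fun c : Fin n => ¬ c.val < r) := by
          congr 1
          ext c
          rw [not_lt]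
        have h5 := Finset.card_filter_add_card_filter_not (s := (Finset.univ : Finset (Fin n)))
          (fun c => c.val < r)
        have h6 : (Finset.univ.filter fun c : Fin n => c.val < r).card ≤ r := by
          have h7 : (Finset.univ.filter fun c : Fin n => c.val < r).card ≤
              (Finset.range r).card := by
            refine Finset.card_le_card_of_injOn (fun c => c.val) ?_ ?_
            · intro c hc
              simp only [Finset.coe_range, Set.mem_Iio]
              exact (Finset.mem_filter.1 (Finset.mem_coe.1 hc)).2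
            · intro a _ b _ hab
              exact Fin.ext hab
          rwa [Finset.card_range] at h7
        rw [Finset.card_univ, Fintype.card_fin] at h5
        rw [h4]
        omega
      omega
    have hsplit := Finset.card_filter_add_card_filter_not (s := C)
      (fun c => ((τ⁻¹ * σ) c).val < r)
    have hGdcard : n - 2 * r + 1 ≤ Gd.card := by
      rw [← hBd, ← hGd] at hsplit
      omega
    have hGdr : (n : ℝ) - 2 * r + 1 ≤ Gd.card := by
      have h1 : ((n - 2 * r + 1 : ℕ) : ℝ) ≤ Gd.card := by exact_mod_cast hGdcard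
      rw [Nat.cast_add, Nat.cast_sub h2r] at h1
      push_cast at h1
      exact h1
    -- combine
    have hsum2 : (Gd.card : ℂ) * kern ρ w σ τ = - ∑ c ∈ Bd, kern ρ w (σ * swap i0 c) τ := by
      rw [← Finset.sum_filter_add_sum_filter_not C (fun c => ((τ⁻¹ * σ) c).val < r), ← hBd,
        ← hGd, Finset.sum_congr rfl hgood, Finset.sum_const, nsmul_eq_mul] at hsum
      linear_combination hsum
    have hnorm : (Gd.card : ℝ) * ‖kern ρ w σ τ‖ ≤
        r * (((r : ℝ) / ((n : ℝ) - 2 * r + 1)) ^ u * nrm2 w) := by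
      have h1 := congrArg norm hsum2
      rw [norm_mul, norm_neg, Complex.norm_natCast] at h1
      rw [h1]
      refine (norm_sum_le _ _).trans ((Finset.sum_le_sum hbad).trans ?_)
      rw [Finset.sum_const, nsmul_eq_mul]
      have h2 : 0 ≤ ((r : ℝ) / ((n : ℝ) - 2 * r + 1)) ^ u * nrm2 w :=
        mul_nonneg (pow_nonneg (div_nonneg (Nat.cast_nonneg _) hden.le) _) (nrm2_nonneg w)
      exact mul_le_mul_of_nonneg_right (by exact_mod_cast hBdcard) h2
    have h1 : ((n : ℝ) - 2 * r + 1) * ‖kern ρ w σ τ‖ ≤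
        r * (((r : ℝ) / ((n : ℝ) - 2 * r + 1)) ^ u * nrm2 w) :=
      (mul_le_mul_of_nonneg_right hGdr (norm_nonneg _)).trans hnorm
    rw [← le_div_iff₀' hden] at h1
    refine h1.trans (le_of_eq ?_)
    rw [pow_succ]
    field_simp

end level

end Pool.Agent.Helper6.FixK
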