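import Pool.Agent.Helper6.FixK.Char
import Pool.Agent.Helper15.An.Good

/-! Character bound at an exact level, with respect to the even stabilizers. -/

set_option linter.unusedSectionVars false

namespace Pool.Agent.Helper6.FixK

open Matrix Equiv Pool.Agent.Helper15.An
open scoped ComplexOrder

variable {n D : ℕ}

/-- twist of a representation by the sign -/
noncomputable def twist (ρ : Perm (Fin n) →* Matrix (Fin D) (Fin D) ℂ) :
    Perm (Fin n) →* Matrix (Fin D) (Fin D) ℂ where
  toFun g := (((Perm.sign g : ℤˣ) : ℤ) : ℂ) • ρ g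
  map_one' := by simp
  map_mul' g h := by
    rw [map_mul, map_mul, Matrix.smul_mul, Matrix.mul_smul, smul_smul]
    push_cast
    rfl

theorem twist_apply (ρ : Perm (Fin n) →* Matrix (Fin D) (Fin D) ℂ) (g : Perm (Fin n)) :
    twist ρ g = (((Perm.sign g : ℤˣ) : ℤ) : ℂ) • ρ g := rfl

theorem sign_cases (g : Perm (Fin n)) : (((Perm.sign g : ℤˣ) : ℤ) : ℂ) = 1 ∨
    (((Perm.sign g : ℤˣ) : ℤ) : ℂ) = -1 := by
  rcases Int.units_eq_one_or (Perm.sign g) with h | h
  · left; rw [h]; simp
  · right; rw [h]; simp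

theorem twist_irr {ρ : Perm (Fin n) →* Matrix (Fin D) (Fin D) ℂ} (hρ : IsIrr ρ) :
    IsIrr (twist ρ) := by
  have key : ∀ (g : Perm (Fin n)) (M : Matrix (Fin D) (Fin D) ℂ),
      (twist ρ g) * M * (twist ρ g)ᴴ = ρ g * M * (ρ g)ᴴ := by
    intro g M
    rw [twist_apply]
    rcases sign_cases g with h | h
    · rw [h, one_smul]
    · rw [h]; simp
  refine ⟨hρ.pos, fun g => ?_, fun M => ?_⟩
  · rw [twist_apply]
    rcases sign_cases g with h | h
    · rw [h, one_smul, hρ.unit]
    · rw [h]; simp [hρ.unit]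
  · simp_rw [key]
    exact hρ.schur M

theorem norm_trace_twist (ρ : Perm (Fin n) →* Matrix (Fin D) (Fin D) ℂ) (g : Perm (Fin n)) :
    ‖trace (twist ρ g)‖ = ‖trace (ρ g)‖ := by
  rw [twist_apply, Matrix.trace_smul, smul_eq_mul, norm_mul]
  rcases sign_cases g with h | h
  · rw [h]; simp
  · rw [h]; simp

theorem char_bound_level {r : ℕ} (hr : 0 < r) (h4 : 4 * r ≤ n)
    {ρ : Perm (Fin n) →* Matrix (Fin D) (Fin D) ℂ} (hρ : IsIrr ρ)
    (hf : HasFix ρ (stab n r)) (hnf : ¬ HasFix ρ (stab n (r - 1))) (g : Perm (Fin n)) :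
    ‖trace (ρ g)‖ ≤ D * (2 * fixc g / n + 14 * Real.sqrt (r / n)) ^ r := by
  classical
  obtain ⟨v, hv0, hv⟩ := hf
  have ha : r < n := by omega
  have hb : r + 1 < n := by omega
  set t : Perm (Fin n) := swap ⟨r, ha⟩ ⟨r + 1, hb⟩ with ht
  have htt : t * t = 1 := Equiv.swap_mul_self _ _
  have hts : Perm.sign t = -1 := by
    rw [ht]
    exact Perm.sign_swap (by intro h; have := congrArg Fin.val h; simp at this)
  have htf : ∀ i : Fin n, i.val < r → t i = i := by
    intro i hi
    refine swap_apply_of_ne_of_ne ?_ ?_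
    · rintro rfl; simp at hi
    · rintro rfl; simp at hi
  have hev : ∀ h : Perm (Fin n), Perm.sign h = 1 → (∀ i : Fin n, i.val < r → h i = i) →
      ρ h *ᵥ v = v := fun h h1 h2 => hv ⟨h, h1, h2⟩
  have htht : ∀ h : Perm (Fin n), (∀ i : Fin n, i.val < r → h i = i) →
      ∀ i : Fin n, i.val < r → (t * h * t) i = i := by
    intro h hh i hi
    rw [Perm.mul_apply, Perm.mul_apply, htf i hi, hh i hi, htf i hi]
  have hht : ∀ h : Perm (Fin n), (∀ i : Fin n, i.val < r → h i = i) →
      ∀ i : Fin n, i.val < r → (h * t) i = i := by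
    intro h hh i hi
    rw [Perm.mul_apply, htf i hi, hh i hi]
  have hsg : ∀ h : Perm (Fin n), ¬ Perm.sign h = 1 → Perm.sign (h * t) = 1 := by
    intro h h1
    rcases Int.units_eq_one_or (Perm.sign h) with h2 | h2
    · exact absurd h2 h1
    · rw [map_mul, h2, hts]; rfl
  have hth : ∀ h : Perm (Fin n), h = (h * t) * t := by
    intro h
    rw [mul_assoc, htt, mul_one]
  -- no fixed vectors at level r - 1
  have hno : ∀ x : Fin D → ℂ, (∀ h : Perm (Fin n), Perm.sign h = 1 →
      (∀ i : Fin n, i.val + 1 < r → h i = i) → ρ h *ᵥ x = x) → x = 0 := by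
    intro x hx
    by_contra hx0
    apply hnf
    refine ⟨x, hx0, fun h => hx h.1 h.2.1 fun i hi => h.2.2 i (by omega)⟩
  by_cases hplus : v + ρ t *ᵥ v = 0
  · -- the sign type
    have htv : ρ t *ᵥ v = -v := (neg_eq_of_add_eq_zero_right hplus).symm
    rw [← norm_trace_twist]
    refine char_bound_full hr h4 (twist_irr hρ) v hv0 ?_ ?_ g
    · intro h hh
      by_cases hs : Perm.sign h = 1
      · rw [twist_apply, hs, Matrix.smul_mulVec, hev h hs hh]
        simp
      · have hs' : Perm.sign h = -1 := by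
          rcases Int.units_eq_one_or (Perm.sign h) with h2 | h2
          · exact absurd h2 hs
          · exact h2
        have h1 : ρ h *ᵥ v = -v := by
          rw [hth h, map_mul, ← Matrix.mulVec_mulVec, htv, Matrix.mulVec_neg,
            hev (h * t) (hsg h hs) (hht h hh)]
        rw [twist_apply, hs', Matrix.smul_mulVec, h1]
        simp
    · intro x hx
      refine hno x fun h h1 h2 => ?_
      have h3 := hx h h2
      rw [twist_apply, h1, Matrix.smul_mulVec] at h3
      simpa using h3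
  · refine char_bound_full hr h4 hρ (v + ρ t *ᵥ v) hplus ?_ ?_ g
    · have heven : ∀ h : Perm (Fin n), Perm.sign h = 1 → (∀ i : Fin n, i.val < r → h i = i) →
          ρ h *ᵥ (v + ρ t *ᵥ v) = v + ρ t *ᵥ v := by
        intro h h1 h2
        have h3 : h * t = t * (t * h * t) := by
          rw [← mul_assoc, ← mul_assoc, htt, one_mul]
        rw [Matrix.mulVec_add, hev h h1 h2, Matrix.mulVec_mulVec, ← map_mul, h3, map_mul,
          ← Matrix.mulVec_mulVec, hev (t * h * t) ?_ (htht h h2)]
        rw [map_mul, map_mul, h1, hts]; rfl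
      intro h hh
      by_cases hs : Perm.sign h = 1
      · exact heven h hs hh
      · have h1 : ρ t *ᵥ (v + ρ t *ᵥ v) = v + ρ t *ᵥ v := by
          rw [Matrix.mulVec_add, Matrix.mulVec_mulVec, ← map_mul, htt, map_one,
            Matrix.one_mulVec, add_comm]
        rw [hth h, map_mul, ← Matrix.mulVec_mulVec, h1, heven (h * t) (hsg h hs) (hht h hh)]
    · intro x hx
      exact hno x fun h _ h2 => hx h h2

end Pool.Agent.Helper6.FixK
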