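import Pool.Agent.Helper15.An.Good
import Pool.Agent.Helper6.FixK.Char

/-! From representations to functions on the alternating group and on tuples. -/

set_option linter.unusedSectionVars false

namespace Pool.Agent.Helper6.FixK

open Matrix Equiv Pool.Agent.Helper15.An
open scoped ComplexOrder

variable {n : ℕ}

/-- Fourier coefficient of a function on the alternating group -/
noncomputable def four {D : ℕ} (ρ : Perm (Fin n) →* Matrix (Fin D) (Fin D) ℂ) (a : Alt n → ℝ) :
    Matrix (Fin D) (Fin D) ℂ := ∑ g : Alt n, a g • ρ (g : Perm (Fin n))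

theorem parseval (F : PW (Perm (Fin n))) (a b : Alt n → ℝ) :
    ∑ i, (F.D i : ℝ) * (trace (four (F.ρ i) a * (four (F.ρ i) b)ᴴ)).re =
      Fintype.card (Perm (Fin n)) * ∑ g, a g * b g := by
  classical
  have h1 : ∀ i, (F.D i : ℂ) * trace (four (F.ρ i) a * (four (F.ρ i) b)ᴴ) =
      ∑ g : Alt n, ∑ h : Alt n, ((a g * b h : ℝ) : ℂ) * (trace (F.ρ i 1) *
        trace (F.ρ i ((g : Perm (Fin n)) * (h : Perm (Fin n))⁻¹))) := by
    intro i
    unfold four
    rw [conjTranspose_sum, Finset.sum_mul, trace_sum, Finset.mul_sum]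
    refine Finset.sum_congr rfl fun g _ => ?_
    rw [Finset.mul_sum, trace_sum, Finset.mul_sum]
    refine Finset.sum_congr rfl fun h _ => ?_
    rw [conjTranspose_smul, Matrix.smul_mul, Matrix.mul_smul, trace_smul, trace_smul,
      rho_conj (F.ρ i) (F.irr i).unit, ← map_mul, map_one, trace_one, Fintype.card_fin,
      Complex.real_smul]
    simp only [star_trivial, Complex.real_smul]
    push_cast
    ring
  have h2 : ∑ i, (F.D i : ℂ) * trace (four (F.ρ i) a * (four (F.ρ i) b)ᴴ) =
      ((Fintype.card (Perm (Fin n)) * ∑ g, a g * b g : ℝ) : ℂ) := by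
    simp_rw [h1]
    rw [Finset.sum_comm]
    have h3 : ∀ g : Alt n, ∑ i, ∑ h : Alt n, ((a g * b h : ℝ) : ℂ) * (trace (F.ρ i 1) *
        trace (F.ρ i ((g : Perm (Fin n)) * (h : Perm (Fin n))⁻¹))) =
        (Fintype.card (Perm (Fin n)) : ℂ) * ((a g * b g : ℝ) : ℂ) := by
      intro g
      rw [Finset.sum_comm]
      simp_rw [← Finset.mul_sum, F.col]
      rw [Finset.sum_eq_single g]
      · rw [mul_inv_cancel]
        simp [mul_comm]
      · intro h _ hne
        have : Finset.univ.filter (fun x : Perm (Fin n) =>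
            1 * x * ((g : Perm (Fin n)) * (h : Perm (Fin n))⁻¹) = x) = ∅ := by
          rw [Finset.filter_eq_empty_iff]
          intro x _ hx
          rw [one_mul] at hx
          have hx1 : (g : Perm (Fin n)) * (h : Perm (Fin n))⁻¹ = 1 := by
            simpa using hx
          exact hne (Subtype.ext (mul_inv_eq_one.1 hx1).symm)
        rw [this]; simp
      · intro h; exact absurd (Finset.mem_univ g) h
    simp_rw [h3]
    push_cast
    rw [Finset.mul_sum]
  have h4 := congrArg Complex.re h2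
  rw [Complex.ofReal_re, Complex.re_sum] at h4
  rw [← h4]
  refine Finset.sum_congr rfl fun i _ => ?_
  rw [← Complex.ofReal_natCast, Complex.re_ofReal_mul]

/-- the walk on the alternating group -/
noncomputable def walk {k : ℕ} (z : Fin k → Alt n) (f : Alt n → ℝ) : Alt n → ℝ := fun g =>
  (2 * (k : ℝ))⁻¹ * ∑ i, (f (g * z i) + f (g * (z i)⁻¹))

theorem four_walk {D k : ℕ} {ρ : Perm (Fin n) →* Matrix (Fin D) (Fin D) ℂ}
    (hu : ∀ g, (ρ g)ᴴ * ρ g = 1) (z : Fin k → Alt n) (f : Alt n → ℝ) :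
    four ρ (walk z f) = four ρ f * avgRe fun l => ρ (z l : Perm (Fin n)) := by
  unfold four walk avgRe
  rw [Matrix.mul_smul]
  simp_rw [mul_smul]
  rw [← Finset.smul_sum]
  congr 1
  simp_rw [Finset.sum_smul]
  rw [Finset.mul_sum, Finset.sum_comm]
  refine Finset.sum_congr rfl fun l _ => ?_
  rw [Matrix.mul_add, Finset.sum_mul, Finset.sum_mul]
  simp_rw [add_smul]
  rw [Finset.sum_add_distrib, add_comm]
  congr 1
  · rw [← Equiv.sum_comp (Equiv.mulRight (z l)⁻¹) (fun g : Alt n =>
      f g • ρ (g : Perm (Fin n)) * ρ (z l : Perm (Fin n)))]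
    refine Finset.sum_congr rfl fun g _ => ?_
    rw [Equiv.coe_mulRight, Matrix.smul_mul, ← map_mul, ← Subgroup.coe_mul,
      inv_mul_cancel_right]
  · rw [← Equiv.sum_comp (Equiv.mulRight (z l)) (fun g : Alt n =>
      f g • ρ (g : Perm (Fin n)) * (ρ (z l : Perm (Fin n)))ᴴ)]
    refine Finset.sum_congr rfl fun g _ => ?_
    rw [Equiv.coe_mulRight, Matrix.smul_mul, Subgroup.coe_mul, map_mul, Matrix.mul_assoc,
      rho_mul_conj ρ hu, Matrix.mul_one]

/-- spectral gap on the functions invariant under the stabilizer of the first `p` points -/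
def GroupGap {k : ℕ} (z : Fin k → Alt n) (p : ℕ) (ε : ℝ) : Prop :=
  ∀ f : Alt n → ℝ, ∑ g, f g = 0 →
    (∀ h g : Alt n, (∀ i : Fin n, i.val < p → (h : Perm (Fin n)) i = i) → f (h * g) = f g) →
    ∑ g, f g * walk z f g ≤ (1 - ε) * ∑ g, f g ^ 2

theorem groupGap_of_good (F : PW (Perm (Fin n))) {k : ℕ} (z : Fin k → Alt n) (p : ℕ) (ε : ℝ)
    (h : Good F (tupW z) p ε) : GroupGap z p ε := by
  classical
  intro f hsum hinv
  have hG : (0 : ℝ) < Fintype.card (Perm (Fin n)) := by exact_mod_cast Fintype.card_pos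
  have h1 := parseval F (walk z f) f
  have h2 := parseval F f f
  have h3 : ∀ i, (F.D i : ℝ) * (trace (four (F.ρ i) (walk z f) * (four (F.ρ i) f)ᴴ)).re ≤
      (1 - ε) * ((F.D i : ℝ) * (trace (four (F.ρ i) f * (four (F.ρ i) f)ᴴ)).re) := by
    intro i
    have hu := (F.irr i).unit
    rw [four_walk hu]
    set M := four (F.ρ i) f with hM
    set A := avgRe (fun l => F.ρ i (z l : Perm (Fin n))) with hA
    by_cases hM0 : M = 0
    · rw [hM0]; simp
    · have hnt : ¬ Triv (F.ρ i) (Alt n) := by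
        intro ht
        apply hM0
        rw [hM]
        unfold four
        have h3 : ∀ g : Alt n, f g • F.ρ i (g : Perm (Fin n)) =
            f g • (1 : Matrix (Fin (F.D i)) (Fin (F.D i)) ℂ) := fun g => by rw [ht g]
        simp_rw [h3]
        rw [← Finset.sum_smul, hsum, zero_smul]
      have hfix : HasFix (F.ρ i) (stab n p) := by
        have hMfix : ∀ h : stab n p, F.ρ i (h : Perm (Fin n)) * M = M := by
          intro h
          set h' : Alt n := ⟨(h : Perm (Fin n)), mem_Alt.2 h.2.1⟩ with hh'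
          rw [hM]
          unfold four
          rw [Finset.mul_sum, ← Equiv.sum_comp (Equiv.mulLeft h')
            (fun g : Alt n => f g • F.ρ i (g : Perm (Fin n)))]
          refine Finset.sum_congr rfl fun g _ => ?_
          rw [Equiv.coe_mulLeft, Matrix.mul_smul, ← map_mul, hinv h' g fun i hi => h.2.2 i hi,
            Subgroup.coe_mul]
        have : ∃ j, M *ᵥ (Pi.single j 1) ≠ 0 := by
          by_contra hall
          push Not at hall
          apply hM0
          ext a b
          have h1 := congrFun (hall b) a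
          rw [Matrix.mulVec_single_one] at h1
          simpa using h1
        obtain ⟨j, hj⟩ := this
        refine ⟨M *ᵥ (Pi.single j 1), hj, fun h => ?_⟩
        rw [Matrix.mulVec_mulVec, hMfix]
      have hgap := h i hnt hfix
      rw [wop_tupW (F.ρ i) hu, ← hA] at hgap
      have h8 : 0 ≤ (trace (M * ((1 - ε) •
          (1 : Matrix (Fin (F.D i)) (Fin (F.D i)) ℂ) - A) * Mᴴ)).re :=
        (Complex.nonneg_iff.1 (hgap.mul_mul_conjTranspose_same M).trace_nonneg).1
      rw [Matrix.mul_sub, Matrix.sub_mul, Matrix.mul_smul, Matrix.mul_one, Matrix.smul_mul,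
        trace_sub, trace_smul, Complex.sub_re, Complex.real_smul, Complex.re_ofReal_mul] at h8
      have h9 : (trace (M * A * Mᴴ)).re ≤ (1 - ε) * (trace (M * Mᴴ)).re := by linarith
      have h10 := mul_le_mul_of_nonneg_left h9 (Nat.cast_nonneg (α := ℝ) (F.D i))
      calc _ ≤ (F.D i : ℝ) * ((1 - ε) * (trace (M * Mᴴ)).re) := h10
        _ = _ := by ring
  have h4 := Finset.sum_le_sum fun i (_ : i ∈ Finset.univ) => h3 i
  rw [← Finset.mul_sum, h1, h2] at h4
  have h5 : (Fintype.card (Perm (Fin n)) : ℝ) * ∑ g, f g * walk z f g ≤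
      Fintype.card (Perm (Fin n)) * ((1 - ε) * ∑ g, f g ^ 2) := by
    calc _ = (Fintype.card (Perm (Fin n)) : ℝ) * ∑ g, walk z f g * f g := by
          congr 1
          exact Finset.sum_congr rfl fun g _ => mul_comm _ _
      _ ≤ (1 - ε) * (Fintype.card (Perm (Fin n)) * ∑ g, f g * f g) := h4
      _ = _ := by simp_rw [sq]; ring
  exact le_of_mul_le_mul_left h5 hG

theorem GroupGap.mono {k : ℕ} {z : Fin k → Alt n} {p q : ℕ} {ε : ℝ} (hpq : p ≤ q)
    (h : GroupGap z q ε) : GroupGap z p ε := fun f hs hf =>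
  h f hs fun a g ha => hf a g fun i hi => ha i (by omega)

/-- the walk on tuples of distinct points -/
noncomputable def tupleWalk {k : ℕ} (z : Fin k → Alt n) (r : ℕ) (φ : (Fin r ↪ Fin n) → ℝ) :
    (Fin r ↪ Fin n) → ℝ := fun a => (2 * (k : ℝ))⁻¹ *
  ∑ i, (φ (a.trans (z i : Perm (Fin n)).toEmbedding) +
    φ (a.trans ((z i)⁻¹ : Perm (Fin n)).toEmbedding))

/-- spectral gap of the walk on tuples -/
def TupleGap {k : ℕ} (z : Fin k → Alt n) (r : ℕ) (ε : ℝ) : Prop :=
  ∀ φ : (Fin r ↪ Fin n) → ℝ, ∑ a, φ a = 0 →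
    ∑ a, φ a * tupleWalk z r φ a ≤ (1 - ε) * ∑ a, φ a ^ 2

/-- the tuple of preimages of the initial points -/
def preTuple {r : ℕ} (hr : r ≤ n) (g : Alt n) : Fin r ↪ Fin n :=
  (Fin.castLEEmb hr).trans ((g⁻¹ : Alt n) : Perm (Fin n)).toEmbedding

theorem preTuple_apply {r : ℕ} (hr : r ≤ n) (g : Alt n) (i : Fin r) :
    preTuple hr g i = ((g⁻¹ : Alt n) : Perm (Fin n)) (Fin.castLE hr i) := rfl

theorem preTuple_mul {r : ℕ} (hr : r ≤ n) (g x : Alt n) :
    preTuple hr (g * x) = (preTuple hr g).trans ((x⁻¹ : Alt n) : Perm (Fin n)).toEmbedding := by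
  ext i
  rw [preTuple_apply, _root_.mul_inv_rev]
  rfl

theorem exists_alt_preTuple {r : ℕ} (hr : r + 2 ≤ n) (a : Fin r ↪ Fin n) :
    ∃ g : Alt n, preTuple (show r ≤ n by omega) g = a := by
  classical
  obtain ⟨σ, hσ⟩ := exists_perm_of_embedding (show r ≤ n by omega) a
  set t : Perm (Fin n) := swap ⟨r, by omega⟩ ⟨r + 1, by omega⟩ with ht
  have hts : Perm.sign t = -1 :=
    Perm.sign_swap (by intro h; have := congrArg Fin.val h; simp at this)
  have htf : ∀ i : Fin r, t (Fin.castLE (show r ≤ n by omega) i) = Fin.castLE (by omega) i := by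
    intro i
    refine swap_apply_of_ne_of_ne ?_ ?_
    · intro h
      have := congrArg Fin.val h
      simp only [Fin.val_castLE] at this
      omega
    · intro h
      have := congrArg Fin.val h
      simp only [Fin.val_castLE] at this
      omega
  by_cases hs : Perm.sign σ = 1
  · refine ⟨⟨σ⁻¹, mem_Alt.2 (by rw [Perm.sign_inv, hs])⟩, ?_⟩
    ext i
    rw [preTuple_apply, ← hσ, tupleOf_apply]
    simp
  · have hs' : Perm.sign σ = -1 := by
      rcases Int.units_eq_one_or (Perm.sign σ) with h2 | h2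
      · exact absurd h2 hs
      · exact h2
    refine ⟨⟨(σ * t)⁻¹, mem_Alt.2 (by rw [Perm.sign_inv, map_mul, hs', hts]; rfl)⟩, ?_⟩
    ext i
    rw [preTuple_apply, ← hσ, tupleOf_apply]
    simp [htf]

theorem sum_preTuple {r : ℕ} (hr : r + 2 ≤ n) :
    ∃ c : ℝ, 0 < c ∧ ∀ G : (Fin r ↪ Fin n) → ℝ,
      ∑ g : Alt n, G (preTuple (show r ≤ n by omega) g) = c * ∑ a, G a := by
  classical
  have hr' : r ≤ n := by omega
  set c := (Finset.univ.filter fun g : Alt n => preTuple hr' g = Fin.castLEEmb hr').card with hc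
  have h1mem : (1 : Alt n) ∈ Finset.univ.filter fun g : Alt n =>
      preTuple hr' g = Fin.castLEEmb hr' := by
    rw [Finset.mem_filter]
    refine ⟨Finset.mem_univ _, ?_⟩
    ext i
    rw [preTuple_apply]
    simp
  have hfib : ∀ a : Fin r ↪ Fin n, (Finset.univ.filter fun g : Alt n =>
      preTuple hr' g = a).card = c := by
    intro a
    obtain ⟨τ, hτ⟩ := exists_alt_preTuple hr a
    rw [hc]
    refine (Finset.card_bij (fun g _ => g * τ) ?_ ?_ ?_).symm
    · intro g hg
      rw [Finset.mem_filter] at hg ⊢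
      refine ⟨Finset.mem_univ _, ?_⟩
      rw [preTuple_mul, hg.2, ← hτ]
      ext i
      rfl
    · intro x _ y _ hxy
      exact mul_right_cancel hxy
    · intro g hg
      rw [Finset.mem_filter] at hg
      refine ⟨g * τ⁻¹, ?_, by simp⟩
      rw [Finset.mem_filter]
      refine ⟨Finset.mem_univ _, ?_⟩
      rw [preTuple_mul, hg.2, ← hτ]
      ext i
      show ((((τ⁻¹)⁻¹ : Alt n) : Perm (Fin n)) (preTuple hr' τ i)).val = (Fin.castLE hr' i).val
      rw [preTuple_apply, inv_inv]
      simp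
  refine ⟨c, ?_, fun G => ?_⟩
  · have : 0 < c := Finset.card_pos.2 ⟨1, h1mem⟩
    exact_mod_cast this
  · rw [← Finset.sum_fiberwise (s := Finset.univ) (g := fun g => preTuple hr' g),
      Finset.mul_sum]
    refine Finset.sum_congr rfl fun a _ => ?_
    rw [← hfib a, ← nsmul_eq_mul, ← Finset.sum_const]
    refine Finset.sum_congr rfl fun σ hσ => ?_
    rw [(Finset.mem_filter.1 hσ).2]

theorem tupleGap_of_groupGap {k : ℕ} (z : Fin k → Alt n) {r : ℕ} (hr : r + 2 ≤ n) {ε : ℝ}
    (h : GroupGap z r ε) : TupleGap z r ε := by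
  classical
  intro φ hsum
  have hr' : r ≤ n := by omega
  obtain ⟨c, hc, hG⟩ := sum_preTuple hr
  set f : Alt n → ℝ := fun g => φ (preTuple hr' g) with hf
  have hwalk : ∀ g, walk z f g = tupleWalk z r φ (preTuple hr' g) := by
    intro g
    unfold walk tupleWalk
    congr 1
    refine Finset.sum_congr rfl fun i _ => ?_
    rw [hf]
    simp only [preTuple_mul, inv_inv]
    rw [add_comm]
    rfl
  have h1 := h f (by rw [hf, hG φ, hsum, mul_zero]) (by
    intro a g ha
    rw [hf]
    simp only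
    congr 1
    ext i
    rw [preTuple_apply, preTuple_apply, _root_.mul_inv_rev, Subgroup.coe_mul, Perm.mul_apply]
    congr 2
    have h2 := ha (Fin.castLE hr' i) i.2
    rw [Subgroup.coe_inv, Perm.inv_eq_iff_eq]
    exact h2.symm)
  have h2 : ∑ g, f g * walk z f g = c * ∑ a, φ a * tupleWalk z r φ a := by
    simp_rw [hwalk]
    exact hG fun a => φ a * tupleWalk z r φ a
  have h3 : ∑ g, f g ^ 2 = c * ∑ a, φ a ^ 2 := hG fun a => φ a ^ 2
  rw [h2, h3] at h1
  have h4 : c * ∑ a, φ a * tupleWalk z r φ a ≤ c * ((1 - ε) * ∑ a, φ a ^ 2) := by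
    refine h1.trans (le_of_eq ?_)
    ring
  exact le_of_mul_le_mul_left h4 hc

end Pool.Agent.Helper6.FixK
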